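import Mathlib

/-! # Reduction of linear spaces and roots modulo the maximal ideal of a valuation ring -/

namespace H1DC

open Finset Submodule Module IsLocalRing

set_option linter.unusedSectionVars false

variable {L σ : Type*} [Field L] [Fintype σ] [DecidableEq σ] (O : ValuationSubring L)

/-- reduction of a linear space -/
def redSub (W : Submodule L (σ → L)) : Submodule (ResidueField O) (σ → ResidueField O) where
  carrier := {u | ∃ w : σ → O, (fun s => (w s : L)) ∈ W ∧ ∀ s, residue O (w s) = u s}
  zero_mem' := ⟨0, W.zero_mem, fun s => map_zero _⟩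
  add_mem' := by
    rintro u u' ⟨w, hw, hwu⟩ ⟨w', hw', hwu'⟩
    refine ⟨w + w', ?_, fun s => ?_⟩
    · exact W.add_mem hw hw'
    · rw [Pi.add_apply, map_add, hwu, hwu', Pi.add_apply]
  smul_mem' := by
    rintro c u ⟨w, hw, hwu⟩
    obtain ⟨c', rfl⟩ := residue_surjective c
    refine ⟨fun s => c' * w s, ?_, fun s => ?_⟩
    · exact W.smul_mem (c' : L) hw
    · rw [map_mul, hwu, Pi.smul_apply, smul_eq_mul]

lemma mem_redSub {W : Submodule L (σ → L)} {u : σ → ResidueField O} :
    u ∈ redSub O W ↔ ∃ w : σ → O, (fun s => (w s : L)) ∈ W ∧ ∀ s, residue O (w s) = u s :=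
  Iff.rfl

theorem finrank_red : ∀ (d : ℕ) (W : Submodule L (σ → L)), d ≤ finrank L W →
    d ≤ finrank (ResidueField O) (redSub O W) := by
  intro d
  induction d with
  | zero => intro W _; exact Nat.zero_le _
  | succ d ih =>
    intro W hd
    have hW : W ≠ ⊥ := by
      rintro rfl
      rw [finrank_bot] at hd
      omega
    obtain ⟨w, hw, hw0⟩ := Submodule.exists_mem_ne_zero_of_ne_bot hW
    obtain ⟨t, ht⟩ := Function.ne_iff.mp hw0
    have hne : Nonempty σ := ⟨t⟩
    obtain ⟨s, hs⟩ := Finite.exists_max (fun s => O.valuation (w s))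
    have hws : w s ≠ 0 := by
      intro h0
      have h1 := hs t
      rw [h0, map_zero, le_zero_iff, Valuation.zero_iff] at h1
      exact ht h1
    have hint : ∀ q, (w s)⁻¹ * w q ∈ O := by
      intro q
      rw [← O.valuation_le_one_iff, map_mul, map_inv₀]
      have hv : O.valuation (w s) ≠ 0 := (Valuation.ne_zero_iff _).mpr hws
      rw [inv_mul_le_iff₀ (zero_lt_iff.mpr hv), mul_one]
      exact hs q
    let w' : σ → O := fun q => ⟨(w s)⁻¹ * w q, hint q⟩
    have hw' : (fun q => ((w' q : O) : L)) ∈ W := W.smul_mem (w s)⁻¹ hw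
    have hw's : w' s = 1 := Subtype.ext (inv_mul_cancel₀ hws)
    set W' : Submodule L (σ → L) := W ⊓ LinearMap.ker (LinearMap.proj s : (σ → L) →ₗ[L] L)
      with hW'
    have hdim : finrank L W ≤ finrank L W' + 1 := by
      have e1 := Submodule.finrank_sup_add_finrank_inf_eq W
        (LinearMap.ker (LinearMap.proj s : (σ → L) →ₗ[L] L))
      have e2 := LinearMap.finrank_range_add_finrank_ker (LinearMap.proj s : (σ → L) →ₗ[L] L)
      have e3 : finrank L (LinearMap.range (LinearMap.proj s : (σ → L) →ₗ[L] L)) ≤ 1 := by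
        have := Submodule.finrank_le (LinearMap.range (LinearMap.proj s : (σ → L) →ₗ[L] L))
        rwa [Module.finrank_self] at this
      have e4 : finrank L ↥(W ⊔ LinearMap.ker (LinearMap.proj s : (σ → L) →ₗ[L] L)) ≤
        finrank L (σ → L) := Submodule.finrank_le _
      rw [← hW'] at e1
      omega
    have h1 := ih W' (by omega)
    have hlt : redSub O W' < redSub O W := by
      refine lt_of_le_of_ne ?_ ?_
      · rintro u ⟨z, hz, hzu⟩
        exact ⟨z, hz.1, hzu⟩
      · intro heq
        have hmem : (fun q => residue O (w' q)) ∈ redSub O W := ⟨w', hw', fun _ => rfl⟩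
        rw [← heq] at hmem
        obtain ⟨z, hz, hzu⟩ := hmem
        have hz0 : (z s : L) = 0 := hz.2
        have hz0' : z s = 0 := Subtype.ext hz0
        have h3 : residue O (z s) = residue O (w' s) := hzu s
        rw [hz0', hw's, map_zero, map_one] at h3
        exact zero_ne_one h3
    have h2 := Submodule.finrank_lt_finrank_of_lt hlt
    omega

/-- Hensel-type lemma over a valuation ring of an algebraically closed field. -/
theorem root_in_max [IsAlgClosed L] (p : Polynomial O) (h0 : p.coeff 0 ∈ maximalIdeal O)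
    (h1 : IsUnit (p.coeff 1)) : ∃ r ∈ maximalIdeal O, p.eval r = 0 := by
  by_cases hc : p.coeff 0 = 0
  · refine ⟨0, Ideal.zero_mem _, ?_⟩
    rw [← Polynomial.coeff_zero_eq_eval_zero, hc]
  · set P : Polynomial L := p.map O.subtype with hP
    have hP0 : P.eval 0 ≠ 0 := by
      rw [← Polynomial.coeff_zero_eq_eval_zero, hP, Polynomial.coeff_map]
      intro h
      exact hc (O.subtype_injective (by rw [h, map_zero]))
    by_contra hno
    push Not at hno
    have hinv : ∀ z ∈ P.roots, z⁻¹ ∈ O := by
      intro z hz
      by_contra hzO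
      have hzO' : z ∈ O := (O.mem_or_inv_mem z).resolve_right hzO
      have hroot : P.eval z = 0 := by
        have := Polynomial.isRoot_of_mem_roots hz
        exact this
      apply hno ⟨z, hzO'⟩
      · rw [mem_maximalIdeal, mem_nonunits_iff]
        intro hu
        apply hzO
        obtain ⟨u, hu⟩ := hu
        have hz1 : ((u⁻¹ : Oˣ) : O) * ⟨z, hzO'⟩ = 1 := by
          rw [← hu, Units.inv_mul]
        have hz2 : (((u⁻¹ : Oˣ) : O) : L) * z = 1 := by
          have := congrArg (fun x : O => (x : L)) hz1
          simpa using this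
        have hz3 : z⁻¹ = (((u⁻¹ : Oˣ) : O) : L) := by
          rw [eq_comm]
          exact eq_inv_of_mul_eq_one_left hz2
        rw [hz3]
        exact ((u⁻¹ : Oˣ) : O).2
      · apply O.subtype_injective
        rw [map_zero, ← hroot, hP, Polynomial.eval_map, Polynomial.eval₂_eq_sum_range,
          Polynomial.eval_eq_sum_range, map_sum]
        apply Finset.sum_congr rfl
        intro i _
        rw [map_mul, map_pow]
        rfl
    have hsplit := (IsAlgClosed.splits P).eval_derivative_eq_eval_mul_sum hP0
    have hder : P.derivative.eval 0 = ((p.coeff 1 : O) : L) := by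
      rw [← Polynomial.coeff_zero_eq_eval_zero, Polynomial.coeff_derivative, hP,
        Polynomial.coeff_map]
      simp
    have hev : P.eval 0 = ((p.coeff 0 : O) : L) := by
      rw [← Polynomial.coeff_zero_eq_eval_zero, hP, Polynomial.coeff_map]
      rfl
    have hsum : ∀ S : Multiset L, (∀ z ∈ S, z⁻¹ ∈ O) →
        (S.map fun z => 1 / (0 - z)).sum ∈ O := by
      intro S hS
      apply Subring.multiset_sum_mem (O.toSubring)
      intro y hy
      obtain ⟨z, hz, rfl⟩ := Multiset.mem_map.mp hy
      have := O.neg_mem _ (hS z hz)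
      rw [zero_sub, one_div, inv_neg]
      exact this
    have hs := hsum _ hinv
    have heq : p.coeff 1 = p.coeff 0 * ⟨_, hs⟩ := by
      apply Subtype.ext
      rw [← hder, hsplit, hev]
      rfl
    have hmem : p.coeff 1 ∈ maximalIdeal O := by
      rw [heq]
      exact Ideal.mul_mem_right _ _ h0
    exact (mem_maximalIdeal _).mp hmem h1

end H1DC
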