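import Pool.Agent.Helper1x.DC.Final
import Pool.Agent.Helper1x.DC.Val

/-! # The border (approximative) determinantal complexity of the permanent -/

namespace H1DC

open Finset Submodule Module IsLocalRing

set_option linter.unusedSectionVars false

section perm

variable {K : Type*} [Field K] [CharZero K]

/-- the permanent on the line through the base point in the direction of the corner -/
lemma permF_corner (N : ℕ) (s : K) :
    permF (fun p => basePt K N p + if p = (0, 0) then s else 0) = s * (N.factorial : K) := by
  have h1 : ∀ σ : Equiv.Perm (Fin (N + 1)),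
      ∏ i, (basePt K N (σ i, i) + if (σ i, i) = ((0 : Fin (N + 1)), (0 : Fin (N + 1)))
        then s else 0) = 1 + if σ 0 = 0 then s - ((N : K) + 1) else 0 := by
    intro σ
    rw [Fin.prod_univ_succ]
    have : ∀ i : Fin N, (basePt K N (σ i.succ, i.succ) +
        if (σ i.succ, i.succ) = ((0 : Fin (N + 1)), (0 : Fin (N + 1))) then s else 0) = 1 := by
      intro i
      rw [basePt_succ, if_neg, add_zero]
      intro h
      exact Fin.succ_ne_zero i (Prod.mk.inj h).2
    rw [prod_congr rfl fun i _ => this i, prod_const_one, mul_one, basePt_zero]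
    by_cases h : σ 0 = 0
    · rw [if_pos h, if_pos h, if_pos (by rw [h])]; ring
    · rw [if_neg h, if_neg h, if_neg (fun hh => h (Prod.mk.inj hh).1)]; ring
  rw [permF_eq, sum_congr rfl fun σ _ => h1 σ, sum_add_distrib,
    sum_fix_zero (N := N) (fun _ => s - ((N : K) + 1)) (fun _ => s - ((N : K) + 1))
      (fun _ _ _ _ => rfl)]
  simp only [sum_const, card_univ, Fintype.card_perm, Fintype.card_fin, nsmul_eq_mul, mul_one]
  rw [Nat.factorial_succ]
  push_cast
  ring

end perm

/-- the permanent polynomial of the matrix of variables -/
noncomputable abbrev permP (n : ℕ) (R : Type*) [CommRing R] : MvPolynomial (Fin n × Fin n) R :=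
  (Matrix.of fun i j : Fin n => (MvPolynomial.X (i, j) : MvPolynomial (Fin n × Fin n) R)).permanent

lemma map_permP (n : ℕ) {R S : Type*} [CommRing R] [CommRing S] (f : R →+* S) :
    MvPolynomial.map f (permP n R) = permP n S := by
  simp [permP, Matrix.permanent, map_sum, map_prod]

theorem core {L : Type*} [Field L] [IsAlgClosed L] (O : ValuationSubring L)
    [CharZero (ResidueField O)] (n m : ℕ) (F : MvPolynomial (Fin n × Fin n) O)
    (hF : MvPolynomial.map (residue O) F = permP n (ResidueField O))
    (A : Matrix (Fin m) (Fin m) (MvPolynomial (Fin n × Fin n) L))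
    (hA : ∀ i j, (A i j).totalDegree ≤ 1)
    (hdet : A.det = MvPolynomial.map O.subtype F) :
    2 * ((n - 2) * (n - 3)) ≤ 3 * m := by
  classical
  rcases Nat.lt_or_ge n 3 with hn | hn
  · have : n - 2 = 0 := by omega
    rw [this]; simp
  obtain ⟨k, rfl⟩ : ∃ k, n = k + 2 := ⟨n - 2, by omega⟩
  -- the base point in `O`
  let b : Fin (k + 2) × Fin (k + 2) → O := fun p => if p.1 = 0 ∧ p.2 = 0 then -((k + 1 : ℕ) : O)
    else 1
  have hb : ∀ q, residue O (b q) = basePt (ResidueField O) (k + 1) q := by
    intro q
    simp only [b, basePt]
    split_ifs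
    · rw [map_neg, map_natCast]
    · rw [map_one]
  -- the one-variable polynomial
  let g : Fin (k + 2) × Fin (k + 2) → Polynomial O := fun q =>
    Polynomial.C (b q) + if q = (0, 0) then Polynomial.X else 0
  let p : Polynomial O := MvPolynomial.eval₂ Polynomial.C g F
  have hpeval : ∀ r : O, p.eval r =
      MvPolynomial.eval (fun q => b q + if q = (0, 0) then r else 0) F := by
    intro r
    change Polynomial.evalRingHom r (MvPolynomial.eval₂Hom Polynomial.C g F) = _
    rw [MvPolynomial.map_eval₂Hom]
    have e1 : (Polynomial.evalRingHom r).comp Polynomial.C = RingHom.id O := by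
      ext x; simp
    rw [e1]
    change MvPolynomial.eval₂ _ _ F = MvPolynomial.eval₂ _ _ F
    congr 1
    funext q
    simp only [g, Polynomial.coe_evalRingHom, Polynomial.eval_add, Polynomial.eval_C]
    split_ifs <;> simp
  have hpmap : p.map (residue O) = Polynomial.C ((k + 1).factorial : (ResidueField O)) * Polynomial.X := by
    apply Polynomial.funext
    intro s
    have hinf : Infinite (ResidueField O) := inferInstance
    have e1 : (p.map (residue O)).eval s =
        MvPolynomial.eval (fun q => basePt (ResidueField O) (k + 1) q + if q = (0, 0) then s else 0)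
          (MvPolynomial.map (residue O) F) := by
      rw [MvPolynomial.eval_map, Polynomial.eval_map]
      change Polynomial.eval₂RingHom (residue O) s (MvPolynomial.eval₂Hom Polynomial.C g F) = _
      rw [MvPolynomial.map_eval₂Hom]
      have e2 : (Polynomial.eval₂RingHom (residue O) s).comp Polynomial.C = residue O := by
        ext x; simp
      rw [e2]
      change MvPolynomial.eval₂ _ _ F = MvPolynomial.eval₂ _ _ F
      congr 1
      funext q
      simp only [g, Polynomial.coe_eval₂RingHom, Polynomial.eval₂_add, Polynomial.eval₂_C, hb]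
      split_ifs <;> simp
    rw [e1, hF, eval_perm, permF_corner]
    simp only [Polynomial.eval_mul, Polynomial.eval_C, Polynomial.eval_X]
    ring
  have hp0 : p.coeff 0 ∈ maximalIdeal O := by
    rw [← residue_eq_zero_iff, ← Polynomial.coeff_map, hpmap]
    simp
  have hp1 : IsUnit (p.coeff 1) := by
    by_contra hnu
    have h2 : p.coeff 1 ∈ maximalIdeal O := (mem_maximalIdeal _).mpr hnu
    rw [← residue_eq_zero_iff, ← Polynomial.coeff_map, hpmap] at h2
    simp only [Polynomial.coeff_C_mul, Polynomial.coeff_X_one, mul_one] at h2
    exact Nat.cast_ne_zero.mpr (Nat.factorial_ne_zero (k + 1)) h2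
  obtain ⟨r, hr, hr0⟩ := root_in_max O p hp0 hp1
  let x : Fin (k + 2) × Fin (k + 2) → O := fun q => b q + if q = (0, 0) then r else 0
  have hx0 : MvPolynomial.eval x F = 0 := by rw [← hpeval r, hr0]
  have hxres : ∀ q, residue O (x q) = basePt (ResidueField O) (k + 1) q := by
    intro q
    have hr' : residue O r = 0 := (residue_eq_zero_iff _).mpr hr
    simp only [x, map_add, hb]
    split_ifs
    · rw [hr', add_zero]
    · rw [map_zero, add_zero]
  have hcoe : ∀ y : Fin (k + 2) × Fin (k + 2) → O,
      MvPolynomial.eval (fun q => (y q : L)) A.det = ((MvPolynomial.eval y F : O) : L) := by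
    intro y
    rw [hdet, MvPolynomial.eval_map]
    have := MvPolynomial.eval₂_comp_left O.subtype (RingHom.id O) y F
    rw [RingHom.comp_id] at this
    exact this.symm
  obtain ⟨W, hdim, hW⟩ := exists_subspace A hA (fun q => (x q : L)) (by
    rw [hcoe x, hx0]; rfl)
  rw [Fintype.card_prod, Fintype.card_fin] at hdim
  have hred := finrank_red O (finrank L W) W le_rfl
  apply dc_arith (k + 2) m (finrank (ResidueField O) (redSub O W)) (by omega)
  intro k' hk'
  have hkk : k' = k := by omega
  subst hkk
  apply dim_bound
  rintro u ⟨w, hw, hwu⟩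
  have h1 := hW _ hw
  have h2 : MvPolynomial.eval (fun q => x q + w q) F = 0 := by
    have h3 := hcoe (fun q => x q + w q)
    have h4 : (fun q => ((x q + w q : O) : L)) = fun q => (x q : L) + (w q : L) := rfl
    rw [h4, h1] at h3
    exact O.subtype_injective (by rw [map_zero]; exact h3.symm)
  have h5 := congrArg (residue O) h2
  rw [map_zero] at h5
  rw [← eval_perm]
  change MvPolynomial.eval _ (permP (k' + 2) (ResidueField O)) = 0
  rw [← hF, MvPolynomial.eval_map, ← h5]
  have := MvPolynomial.eval₂_comp_left (residue O) (RingHom.id O) (fun q => x q + w q) F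
  rw [RingHom.comp_id] at this
  change _ = residue O (MvPolynomial.eval₂ (RingHom.id O) (fun q => x q + w q) F)
  rw [this]
  congr 1
  funext q
  simp only [Function.comp, map_add, hxres, hwu]

/-- **Border determinantal complexity.** `R` a local ring whose residue field has characteristic
zero, mapped to a field `K`. If a lift `F` of the permanent polynomial to `R` becomes, over `K`, the
determinant of an `m × m` matrix of affine-linear forms, then `3 m ≥ 2 (n - 2) (n - 3)`. -/
theorem border_dc {R K : Type*} [CommRing R] [IsLocalRing R] [CharZero (ResidueField R)]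
    [Field K] (ι : R →+* K) (n m : ℕ) (F : MvPolynomial (Fin n × Fin n) R)
    (hF : MvPolynomial.map (residue R) F = permP n (ResidueField R))
    (A : Matrix (Fin m) (Fin m) (MvPolynomial (Fin n × Fin n) K))
    (hA : ∀ i j, (A i j).totalDegree ≤ 1)
    (hdet : A.det = MvPolynomial.map ι F) :
    2 * ((n - 2) * (n - 3)) ≤ 3 * m := by
  let L := AlgebraicClosure K
  obtain ⟨O, h, hloc⟩ := IsLocalRing.exists_factor_valuationRing ((algebraMap K L).comp ι)
  let f : R →+* O := ((algebraMap K L).comp ι).codRestrict O.toSubring h
  have hf : IsLocalHom f := hloc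
  have hfι : O.subtype.comp f = (algebraMap K L).comp ι := by
    ext x; rfl
  have hinj : Function.Injective (ResidueField.map f) := RingHom.injective _
  have hchar : CharZero (ResidueField O) := charZero_of_injective_ringHom hinj
  apply core O n m (MvPolynomial.map f F) _ (A.map (MvPolynomial.map (algebraMap K L)))
  · intro i j
    rw [Matrix.map_apply]
    exact le_trans (Finset.sup_mono (MvPolynomial.support_map_subset _ _)) (hA i j)
  · have e1 : (A.map (MvPolynomial.map (algebraMap K L))).det =
        MvPolynomial.map (algebraMap K L) A.det := by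
      rw [RingHom.map_det]; rfl
    rw [e1, hdet, MvPolynomial.map_map, MvPolynomial.map_map, hfι]
  · rw [MvPolynomial.map_map, ← ResidueField.map_comp_residue, ← MvPolynomial.map_map, hF,
      map_permP]

end H1DC
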