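import Pool.Agent.Helper1x.DC.Border

/-! # Border determinantal complexity: rational functions in `ε`, limits over `ℂ` -/

namespace H1DC

open Finset IsLocalRing

set_option linter.unusedSectionVars false

/-- version with a local homomorphism `φ : R → κ` to a field of characteristic zero -/
theorem border_dc' {R κ K : Type*} [CommRing R] [Field κ] [CharZero κ] [Field K]
    (φ : R →+* κ) (ι : R →+* K) (hφ : IsLocalHom φ) (n m : ℕ)
    (F : MvPolynomial (Fin n × Fin n) R)
    (hF : MvPolynomial.map φ F = permP n κ)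
    (A : Matrix (Fin m) (Fin m) (MvPolynomial (Fin n × Fin n) K))
    (hA : ∀ i j, (A i j).totalDegree ≤ 1)
    (hdet : A.det = MvPolynomial.map ι F) :
    2 * ((n - 2) * (n - 3)) ≤ 3 * m := by
  have hloc : IsLocalRing R := RingHom.domain_isLocalRing φ
  let ψ : ResidueField R →+* κ := ResidueField.lift φ
  have hψ : ψ.comp (residue R) = φ := by
    ext x; rfl
  have hchar : CharZero (ResidueField R) := RingHom.charZero ψ
  apply border_dc ι n m F _ A hA hdet
  apply MvPolynomial.map_injective ψ (RingHom.injective ψ)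
  rw [MvPolynomial.map_map, hψ, hF, map_permP]

lemma exists_lift {R K σ : Type*} [CommRing R] [CommRing K] (ι : R →+* K)
    (f : MvPolynomial σ K) (h : ∀ d, MvPolynomial.coeff d f ∈ ι.range) :
    ∃ F : MvPolynomial σ R, MvPolynomial.map ι F = f := by
  choose c hc using h
  refine ⟨∑ d ∈ f.support, MvPolynomial.monomial d (c d), ?_⟩
  rw [map_sum]
  conv_rhs => rw [f.as_sum]
  apply sum_congr rfl
  intro d _
  rw [MvPolynomial.map_monomial, hc]

section ratfunc

variable {k : Type*} [Field k]

/-- the rational functions defined at `0` -/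
noncomputable def localAtZero (k : Type*) [Field k] : Subring (RatFunc k) where
  carrier := {x | x.denom.eval 0 ≠ 0}
  zero_mem' := by simp
  one_mem' := by simp
  add_mem' := by
    intro x y hx hy
    obtain ⟨q, hq⟩ := RatFunc.denom_add_dvd x y
    have := congrArg (Polynomial.eval 0) hq
    rw [Polynomial.eval_mul, Polynomial.eval_mul] at this
    exact left_ne_zero_of_mul (this ▸ mul_ne_zero hx hy)
  mul_mem' := by
    intro x y hx hy
    obtain ⟨q, hq⟩ := RatFunc.denom_mul_dvd x y
    have := congrArg (Polynomial.eval 0) hq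
    rw [Polynomial.eval_mul, Polynomial.eval_mul] at this
    exact left_ne_zero_of_mul (this ▸ mul_ne_zero hx hy)
  neg_mem' := by
    intro x hx
    obtain ⟨q, hq⟩ := RatFunc.denom_mul_dvd (-1) x
    have h1 : (-1 : RatFunc k).denom = 1 := by
      have : (-1 : RatFunc k) = RatFunc.C (-1) := by simp
      rw [this, RatFunc.denom_C]
    rw [h1, one_mul, neg_one_mul] at hq
    have := congrArg (Polynomial.eval 0) hq
    rw [Polynomial.eval_mul] at this
    have hx' : x.denom.eval 0 ≠ 0 := hx
    rw [this] at hx'
    exact left_ne_zero_of_mul hx'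

lemma mem_localAtZero {x : RatFunc k} : x ∈ localAtZero k ↔ x.denom.eval 0 ≠ 0 := Iff.rfl

/-- evaluation at `0` -/
noncomputable def evalZero (k : Type*) [Field k] : localAtZero k →+* k where
  toFun x := RatFunc.eval (RingHom.id k) 0 (x : RatFunc k)
  map_one' := by simp
  map_zero' := by simp
  map_add' := by
    intro x y
    exact RatFunc.eval_add (f := RingHom.id k) (a := 0) x.2 y.2
  map_mul' := by
    intro x y
    exact RatFunc.eval_mul (f := RingHom.id k) (a := 0) x.2 y.2

instance : IsLocalHom (evalZero k) := by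
  constructor
  intro x hx
  have hx0 : RatFunc.eval (RingHom.id k) 0 (x : RatFunc k) ≠ 0 := hx.ne_zero
  have hxne : (x : RatFunc k) ≠ 0 := by
    intro h
    rw [h] at hx0
    simp at hx0
  have hnum : (x : RatFunc k).num.eval 0 ≠ 0 := by
    intro h
    apply hx0
    unfold RatFunc.eval
    rw [show Polynomial.eval₂ (RingHom.id k) 0 (x : RatFunc k).num = 0 from h, zero_div]
  have hinv : (x : RatFunc k)⁻¹ ∈ localAtZero k := by
    obtain ⟨q, hq⟩ := RatFunc.denom_inv_dvd hxne
    have := congrArg (Polynomial.eval 0) hq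
    rw [Polynomial.eval_mul] at this
    exact left_ne_zero_of_mul (this ▸ hnum)
  exact IsUnit.of_mul_eq_one ⟨_, hinv⟩ (Subtype.ext (mul_inv_cancel₀ hxne))

theorem border_dc_ratFunc [CharZero k] (n m : ℕ)
    (A : Matrix (Fin m) (Fin m) (MvPolynomial (Fin n × Fin n) (RatFunc k)))
    (hA : ∀ i j, (A i j).totalDegree ≤ 1)
    (h : ∀ d, (A.det.coeff d).denom.eval 0 ≠ 0 ∧
      (A.det.coeff d).eval (RingHom.id k) 0 = (permP n k).coeff d) :
    2 * ((n - 2) * (n - 3)) ≤ 3 * m := by
  obtain ⟨F, hF⟩ := exists_lift (localAtZero k).subtype A.det (fun d => ⟨⟨_, (h d).1⟩, rfl⟩)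
  apply border_dc' (evalZero k) (localAtZero k).subtype inferInstance n m F _ A hA hF.symm
  ext d
  rw [MvPolynomial.coeff_map, ← (h d).2, ← hF, MvPolynomial.coeff_map]
  rfl

end ratfunc

section limits

open Filter Topology

/-- the ultrafilter -/
noncomputable abbrev UF : Ultrafilter ℕ := hyperfilter ℕ

/-- germs of sequences of complex numbers -/
abbrev GC : Type := Germ (UF : Filter ℕ) ℂ

/-- germs with a limit -/
noncomputable def convGerm : Subring GC where
  carrier := {x | ∃ z : ℂ, x.Tendsto (𝓝 z)}
  zero_mem' := ⟨0, by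
    change Germ.Tendsto (((fun _ => 0 : ℕ → ℂ) : GC)) _
    rw [Germ.coe_tendsto]; exact tendsto_const_nhds⟩
  one_mem' := ⟨1, by
    change Germ.Tendsto (((fun _ => 1 : ℕ → ℂ) : GC)) _
    rw [Germ.coe_tendsto]; exact tendsto_const_nhds⟩
  add_mem' := by
    rintro x y ⟨z, hz⟩ ⟨z', hz'⟩
    induction x using Germ.inductionOn with | _ f
    induction y using Germ.inductionOn with | _ g
    rw [Germ.coe_tendsto] at hz hz'
    refine ⟨z + z', ?_⟩
    rw [← Germ.coe_add, Germ.coe_tendsto]
    exact hz.add hz'
  mul_mem' := by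
    rintro x y ⟨z, hz⟩ ⟨z', hz'⟩
    induction x using Germ.inductionOn with | _ f
    induction y using Germ.inductionOn with | _ g
    rw [Germ.coe_tendsto] at hz hz'
    refine ⟨z * z', ?_⟩
    rw [← Germ.coe_mul, Germ.coe_tendsto]
    exact hz.mul hz'
  neg_mem' := by
    rintro x ⟨z, hz⟩
    induction x using Germ.inductionOn with | _ f
    rw [Germ.coe_tendsto] at hz
    refine ⟨-z, ?_⟩
    rw [← Germ.coe_neg, Germ.coe_tendsto]
    exact hz.neg

lemma germ_unique {x : GC} {z z' : ℂ} (h : x.Tendsto (𝓝 z)) (h' : x.Tendsto (𝓝 z')) :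
    z = z' := by
  induction x using Germ.inductionOn with | _ f
  rw [Germ.coe_tendsto] at h h'
  exact tendsto_nhds_unique h h'

/-- the limit -/
noncomputable def limGerm : convGerm →+* ℂ where
  toFun x := Classical.choose x.2
  map_one' := germ_unique (Classical.choose_spec (1 : convGerm).2) (by
    change Germ.Tendsto (((fun _ => 1 : ℕ → ℂ) : GC)) _
    rw [Germ.coe_tendsto]; exact tendsto_const_nhds)
  map_zero' := germ_unique (Classical.choose_spec (0 : convGerm).2) (by
    change Germ.Tendsto (((fun _ => 0 : ℕ → ℂ) : GC)) _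
    rw [Germ.coe_tendsto]; exact tendsto_const_nhds)
  map_add' := by
    intro x y
    apply germ_unique (Classical.choose_spec (x + y).2)
    have hx := Classical.choose_spec x.2
    have hy := Classical.choose_spec y.2
    revert hx hy
    generalize Classical.choose x.2 = z
    generalize Classical.choose y.2 = z'
    obtain ⟨x, hx⟩ := x
    obtain ⟨y, hy⟩ := y
    simp only [Subring.coe_add]
    clear hx hy
    induction x using Germ.inductionOn with | _ f
    induction y using Germ.inductionOn with | _ g
    intro h1 h2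
    rw [Germ.coe_tendsto] at h1 h2
    rw [← Germ.coe_add, Germ.coe_tendsto]
    exact h1.add h2
  map_mul' := by
    intro x y
    apply germ_unique (Classical.choose_spec (x * y).2)
    have hx := Classical.choose_spec x.2
    have hy := Classical.choose_spec y.2
    revert hx hy
    generalize Classical.choose x.2 = z
    generalize Classical.choose y.2 = z'
    obtain ⟨x, hx⟩ := x
    obtain ⟨y, hy⟩ := y
    simp only [Subring.coe_mul]
    clear hx hy
    induction x using Germ.inductionOn with | _ f
    induction y using Germ.inductionOn with | _ g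
    intro h1 h2
    rw [Germ.coe_tendsto] at h1 h2
    rw [← Germ.coe_mul, Germ.coe_tendsto]
    exact h1.mul h2

lemma limGerm_eq {x : convGerm} {z : ℂ} (h : (x : GC).Tendsto (𝓝 z)) : limGerm x = z :=
  germ_unique (Classical.choose_spec x.2) h

instance : IsLocalHom limGerm := by
  constructor
  intro x hx
  have hz0 : limGerm x ≠ 0 := hx.ne_zero
  have hz : (x : GC).Tendsto (𝓝 (limGerm x)) := Classical.choose_spec x.2
  have hxne : (x : GC) ≠ 0 := by
    intro h
    apply hz0
    rw [Subtype.ext h (a2 := (0 : convGerm)), map_zero]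
  have hinv : (x : GC)⁻¹ ∈ convGerm := by
    refine ⟨(limGerm x)⁻¹, ?_⟩
    revert hz
    generalize (x : GC) = y
    induction y using Germ.inductionOn with | _ f
    intro hz
    rw [Germ.coe_tendsto] at hz
    rw [← Germ.coe_inv, Germ.coe_tendsto]
    exact hz.inv₀ hz0
  exact IsUnit.of_mul_eq_one ⟨_, hinv⟩ (Subtype.ext (mul_inv_cancel₀ hxne))

theorem border_dc_limit (n m : ℕ)
    (A : ℕ → Matrix (Fin m) (Fin m) (MvPolynomial (Fin n × Fin n) ℂ))
    (hA : ∀ t i j, (A t i j).totalDegree ≤ 1)
    (h : ∀ d, Tendsto (fun t => (A t).det.coeff d) atTop (𝓝 ((permP n ℂ).coeff d))) :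
    2 * ((n - 2) * (n - 3)) ≤ 3 * m := by
  classical
  -- the matrix over the ring of sequences
  let S := ℕ → ℂ
  let AS : Matrix (Fin m) (Fin m) (MvPolynomial (Fin n × Fin n) S) := Matrix.of fun i j =>
    MvPolynomial.C (fun t => (A t i j).coeff 0) +
      ∑ s, MvPolynomial.C (fun t => (A t i j).coeff (Finsupp.single s 1)) * MvPolynomial.X s
  have hev : ∀ t, AS.map (MvPolynomial.map (Pi.evalRingHom (fun _ : ℕ => ℂ) t)) = A t := by
    intro t
    ext1 i j
    rw [Matrix.map_apply]
    apply MvPolynomial.funext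
    intro x
    rw [affine_eval _ (hA t i j) x]
    simp [AS]
  have hdet : ∀ t d, (AS.det.coeff d) t = (A t).det.coeff d := by
    intro t d
    rw [← hev t]
    have e1 : (AS.map (MvPolynomial.map (Pi.evalRingHom (fun _ : ℕ => ℂ) t))).det =
        MvPolynomial.map (Pi.evalRingHom (fun _ : ℕ => ℂ) t) AS.det := by
      rw [RingHom.map_det]; rfl
    rw [e1, MvPolynomial.coeff_map]
    rfl
  let toG : S →+* GC := Germ.coeRingHom _
  let AG : Matrix (Fin m) (Fin m) (MvPolynomial (Fin n × Fin n) GC) :=
    AS.map (MvPolynomial.map toG)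
  have hAG : ∀ i j, (AG i j).totalDegree ≤ 1 := by
    intro i j
    refine le_trans (Finset.sup_mono (MvPolynomial.support_map_subset _ _)) ?_
    change (AS i j).totalDegree ≤ 1
    simp only [AS, Matrix.of_apply]
    refine le_trans (MvPolynomial.totalDegree_add _ _) (max_le ?_ ?_)
    · rw [MvPolynomial.totalDegree_C]; exact Nat.zero_le _
    · refine le_trans (MvPolynomial.totalDegree_finsetSum _ _) (Finset.sup_le fun s _ => ?_)
      refine le_trans (MvPolynomial.totalDegree_mul _ _) ?_
      rw [MvPolynomial.totalDegree_C, MvPolynomial.totalDegree_X]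
  have hdetG : AG.det = MvPolynomial.map toG AS.det := by
    rw [RingHom.map_det]; rfl
  have hcoef : ∀ d, (AG.det.coeff d).Tendsto (𝓝 ((permP n ℂ).coeff d)) := by
    intro d
    rw [hdetG, MvPolynomial.coeff_map]
    change Germ.Tendsto ((AS.det.coeff d : S) : GC) _
    rw [Germ.coe_tendsto]
    have e1 : AS.det.coeff d = fun t => (A t).det.coeff d := funext fun t => hdet t d
    rw [e1]
    exact (h d).mono_left Nat.hyperfilter_le_atTop
  obtain ⟨F, hF⟩ := exists_lift convGerm.subtype AG.det (fun d => ⟨⟨_, _, hcoef d⟩, rfl⟩)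
  apply border_dc' limGerm convGerm.subtype inferInstance n m F _ AG hAG hF.symm
  ext d
  rw [MvPolynomial.coeff_map]
  apply limGerm_eq
  have := hcoef d
  rw [← hF, MvPolynomial.coeff_map] at this
  exact this

end limits

end H1DC
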