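import Pool.Agent.Helper1x.DC.Kneser

/-! # Subspaces all of whose first `k` power sums vanish

`K` of characteristic zero, `W` a subspace of `X → K` with `∑ x, w x ^ j = 0` for all `w ∈ W`,
`1 ≤ j ≤ k`. Then `k * dim W + 1 ≤ |X|`. -/

namespace H1DC

open Submodule Module

set_option linter.unusedSectionVars false

/-- Polarization. -/
theorem polar {K R : Type*} [Field K] [CharZero K] [CommRing R] [Algebra K R]
    (L : R →ₗ[K] K) (W : Submodule K R) (j : ℕ) (h : ∀ w ∈ W, L (w ^ j) = 0) :
    ∀ v ∈ W ^ j, L v = 0 := by
  have main : ∀ i, i ≤ j → ∀ w ∈ W, ∀ z ∈ W ^ i, L (w ^ (j - i) * z) = 0 := by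
    intro i
    induction i with
    | zero =>
      intro _ w hw z hz
      rw [pow_zero, Submodule.mem_one] at hz
      obtain ⟨c, rfl⟩ := hz
      rw [Nat.sub_zero, mul_comm, ← Algebra.smul_def, map_smul, h w hw, smul_zero]
    | succ i ih =>
      intro hij w hw z hz
      rw [pow_succ] at hz
      induction hz using Submodule.mul_induction_on' with
      | add x _ y _ hx hy => rw [mul_add, map_add, hx, hy, add_zero]
      | mem_mul_mem z' hz' u hu =>
        obtain ⟨m, hm⟩ : ∃ m, j - i = m + 1 := ⟨j - i - 1, by omega⟩
        have hm' : j - (i + 1) = m := by omega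
        rw [hm']
        set p : Polynomial K := ∑ s ∈ Finset.range (m + 2),
          Polynomial.C (((m + 1).choose s : K) * L (u ^ s * w ^ (m + 1 - s) * z')) *
            Polynomial.X ^ s with hp
        have hev : ∀ t : K, p.eval t = 0 := by
          intro t
          have h0 := ih (by omega) (t • u + w) (W.add_mem (W.smul_mem _ hu) hw) z' hz'
          rw [hm, add_pow, Finset.sum_mul, map_sum] at h0
          rw [hp, Polynomial.eval_finsetSum, ← h0]
          apply Finset.sum_congr rfl
          intro s _
          have : (t • u) ^ s * w ^ (m + 1 - s) * ((m + 1).choose s : R) * z' =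
              (t ^ s * ((m + 1).choose s : K)) • (u ^ s * w ^ (m + 1 - s) * z') := by
            rw [smul_pow, Algebra.smul_def, Algebra.smul_def, map_mul, map_natCast]
            ring
          rw [this, map_smul, smul_eq_mul]
          simp only [Polynomial.eval_mul, Polynomial.eval_C, Polynomial.eval_pow,
            Polynomial.eval_X]
          ring
        have hp0 : p = 0 := by
          apply Polynomial.funext
          intro t
          rw [hev t, Polynomial.eval_zero]
        have hc : p.coeff 1 = 0 := by rw [hp0, Polynomial.coeff_zero]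
        rw [hp, Polynomial.finsetSum_coeff, Finset.sum_eq_single 1] at hc
        · rw [Polynomial.coeff_C_mul, Polynomial.coeff_X_pow, if_pos rfl, mul_one,
            Nat.choose_one_right] at hc
          rcases mul_eq_zero.mp hc with h1 | h1
          · exact absurd h1 (Nat.cast_ne_zero.mpr (Nat.succ_ne_zero m))
          · rw [pow_one, Nat.add_sub_cancel] at h1
            rw [← h1]
            congr 1
            ring
        · intro s _ hs
          rw [Polynomial.coeff_C_mul, Polynomial.coeff_X_pow, if_neg (Ne.symm hs), mul_zero]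
        · intro h1
          exact absurd (Finset.mem_range.mpr (by omega)) h1
  intro v hv
  rcases Nat.eq_zero_or_pos j with hj | hj
  · subst hj
    rw [pow_zero, Submodule.mem_one] at hv
    obtain ⟨c, rfl⟩ := hv
    have := h 0 W.zero_mem
    rw [pow_zero] at this
    rw [Algebra.algebraMap_eq_smul_one, map_smul, this, smul_zero]
  · have := main j le_rfl 0 W.zero_mem v hv
    rw [Nat.sub_self, pow_zero, one_mul] at this
    exact this

variable {K X : Type*} [Field K] [Fintype X]

/-- the pairing `∑ x, f x * g x` -/
def pairing : (X → K) →ₗ[K] (X → K) →ₗ[K] K :=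
  LinearMap.mk₂ K (fun f g => ∑ x, f x * g x)
    (by intro f f' g; simp [add_mul, Finset.sum_add_distrib])
    (by intro c f g; simp [Finset.mul_sum, mul_assoc])
    (by intro f g g'; simp [mul_add, Finset.sum_add_distrib])
    (by intro c f g; simp [Finset.mul_sum, mul_left_comm])

lemma pairing_apply (f g : X → K) : pairing f g = ∑ x, f x * g x := rfl

lemma pairing_injective : Function.Injective (pairing : (X → K) →ₗ[K] (X → K) →ₗ[K] K) := by
  classical
  intro f g h
  funext x
  have := LinearMap.congr_fun h (Pi.single x 1)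
  simpa [pairing_apply, Pi.single_apply] using this

lemma finrank_add_le_of_orth (U V : Submodule K (X → K))
    (h : ∀ u ∈ U, ∀ v ∈ V, ∑ x, u x * v x = 0) :
    finrank K U + finrank K V ≤ Fintype.card X := by
  let φ : (X → K) →ₗ[K] Module.Dual K (X → K) := pairing
  have hφ : Function.Injective φ := pairing_injective
  have h1 : U.map φ ≤ V.dualAnnihilator := by
    rintro _ ⟨u, hu, rfl⟩
    rw [Submodule.mem_dualAnnihilator]
    intro v hv
    exact h u hu v hv
  have h2 : finrank K (U.map φ) = finrank K U :=
    (Submodule.equivMapOfInjective _ hφ U).finrank_eq.symm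
  have h3 : finrank K (U.map φ) ≤ finrank K V.dualAnnihilator := Submodule.finrank_mono h1
  have h4 := Subspace.finrank_add_finrank_dualAnnihilator_eq V
  have h5 : finrank K (X → K) = Fintype.card X := Module.finrank_fintype_fun_eq_card K
  omega

lemma stab_le_stab_mul (S T : Submodule K (X → K)) : stab S ≤ stab (S * T) := by
  intro g hg
  rw [mem_stab]
  have : S * T ≤ (S * T).comap (LinearMap.mulLeft K g) := by
    rw [Submodule.mul_le]
    intro s hs t ht
    rw [Submodule.mem_comap, LinearMap.mulLeft_apply, ← mul_assoc]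
    exact Submodule.mul_mem_mul (hg s hs) ht
  exact fun b hb => this hb

/-- the sum functional -/
def sumL : (X → K) →ₗ[K] K := ∑ x, LinearMap.proj x

lemma sumL_apply (f : X → K) : sumL f = ∑ x, f x := by
  simp [sumL]

theorem null_bound [CharZero K] [Nonempty X] (W : Submodule K (X → K)) (k : ℕ)
    (hk : 1 ≤ k) (h : ∀ w ∈ W, ∀ j, 1 ≤ j → j ≤ k → ∑ x, w x ^ j = 0) :
    k * finrank K W + 1 ≤ Fintype.card X := by
  have hpol : ∀ j, 1 ≤ j → j ≤ k → ∀ v ∈ W ^ j, (sumL : (X → K) →ₗ[K] K) v = 0 := by
    intro j h1 h2
    apply polar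
    intro w hw
    rw [sumL_apply]
    exact h w hw j h1 h2
  rcases Nat.lt_or_ge k 2 with hk2 | hk2
  · have hk1 : k = 1 := by omega
    subst hk1
    have horth := finrank_add_le_of_orth (1 : Submodule K (X → K)) W (by
      intro u hu v hv
      rw [Submodule.mem_one] at hu
      obtain ⟨c, rfl⟩ := hu
      have := h v hv 1 le_rfl le_rfl
      simp only [pow_one] at this
      simp only [Pi.algebraMap_apply, Algebra.algebraMap_self, RingHom.id_apply]
      rw [← Finset.mul_sum, this, mul_zero])
    have h1 : 1 ≤ finrank K (1 : Submodule K (X → K)) := by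
      rw [Nat.one_le_iff_ne_zero, Ne, Submodule.finrank_eq_zero]
      exact one_ne_zero
    omega
  obtain ⟨n, rfl⟩ : ∃ n, k = n + 2 := ⟨k - 2, by omega⟩
  set V : Submodule K (X → K) := 1 ⊔ W with hV
  set B : Submodule K (X → K) := V ^ (n + 1) with hB
  set Hs : Submodule K (X → K) := Subalgebra.toSubmodule (stab B) with hHs
  have h1V : (1 : X → K) ∈ V := Submodule.mem_sup_left (Submodule.mem_one.mpr ⟨1, map_one _⟩)
  have orth : ∀ i, ∀ b ∈ V ^ i, ∀ j, 1 ≤ j → i + j ≤ n + 2 → ∀ z ∈ W ^ j,
      (sumL : (X → K) →ₗ[K] K) (b * z) = 0 := by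
    intro i
    induction i with
    | zero =>
      intro b hb j hj hij z hz
      rw [pow_zero, Submodule.mem_one] at hb
      obtain ⟨c, rfl⟩ := hb
      rw [← Algebra.smul_def, map_smul, hpol j hj (by omega) z hz, smul_zero]
    | succ i ih =>
      intro b hb j hj hij z hz
      rw [pow_succ] at hb
      induction hb using Submodule.mul_induction_on' with
      | add x _ y _ hx hy => rw [add_mul, map_add, hx, hy, add_zero]
      | mem_mul_mem b' hb' v hv =>
        obtain ⟨c, hc, w, hw, rfl⟩ := Submodule.mem_sup.mp hv
        rw [Submodule.mem_one] at hc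
        obtain ⟨c, rfl⟩ := hc
        have e1 : b' * (algebraMap K (X → K) c + w) * z = c • (b' * z) + b' * (z * w) := by
          rw [Algebra.smul_def]; ring
        rw [e1, map_add, map_smul, ih b' hb' j hj (by omega) z hz, smul_zero, zero_add]
        apply ih b' hb' (j + 1) (by omega) (by omega)
        rw [pow_succ]
        exact Submodule.mul_mem_mul hz hw
  have hHH : Hs * Hs = Hs := Subalgebra.isIdempotentElem_toSubmodule _
  have h1H : (1 : Submodule K (X → K)) ≤ Hs := by
    intro x hx
    rw [Submodule.mem_one] at hx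
    obtain ⟨c, rfl⟩ := hx
    exact (stab B).algebraMap_mem c
  have hHpow : ∀ j, Hs ^ (j + 1) = Hs := by
    intro j
    induction j with
    | zero => rw [zero_add, pow_one]
    | succ j ih => rw [pow_succ, ih, hHH]
  have hHB : Hs * B = B := by
    apply le_antisymm
    · rw [Submodule.mul_le]
      intro m hm b hb
      exact hm b hb
    · calc B = 1 * B := (one_mul B).symm
        _ ≤ Hs * B := mul_le_mul' h1H le_rfl
  have h1B : (1 : X → K) ∈ B := by
    have := Submodule.pow_mem_pow V h1V (n + 1)
    rwa [one_pow] at this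
  have hHleB : Hs ≤ B := by
    intro x hx
    have := hx 1 h1B
    rwa [mul_one] at this
  set VH : Submodule K (X → K) := Hs * V with hVH
  have hVHpow : ∀ j, VH ^ (j + 1) = Hs * V ^ (j + 1) := by
    intro j
    rw [hVH, mul_pow, hHpow]
  have hVHB : VH ^ (n + 1) = B := by rw [hVHpow, ← hB, hHB]
  have h1VH : (1 : X → K) ∈ VH := by
    have := Submodule.mul_mem_mul (h1H (Submodule.mem_one.mpr ⟨1, map_one _⟩)) h1V
    rwa [one_mul] at this
  have hunit : ∀ j, ∃ e ∈ VH ^ j, ∀ x : X, e x ≠ 0 := by
    intro j
    refine ⟨1, ?_, fun x => one_ne_zero⟩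
    have := Submodule.pow_mem_pow VH h1VH j
    rwa [one_pow] at this
  have hunit1 : ∃ e ∈ VH, ∀ x : X, e x ≠ 0 := ⟨1, h1VH, fun x => one_ne_zero⟩
  have hkn : ∀ j, j ≤ n → (j + 1) * finrank K VH ≤ finrank K ↥(VH ^ (j + 1)) +
      j * finrank K (stab B) := by
    intro j
    induction j with
    | zero => intro _; rw [zero_add, one_mul, pow_one, zero_mul, add_zero]
    | succ j ih =>
      intro hj
      have h1 := ih (by omega)
      have h2 := kneser (VH ^ (j + 1)) VH (hunit _) hunit1
      rw [← pow_succ] at h2
      have h3 : stab (VH ^ (j + 1 + 1)) ≤ stab B := by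
        have h4 : B = VH ^ (j + 1 + 1) * VH ^ (n - (j + 1)) := by
          rw [← pow_add, ← hVHB]
          congr 1
          omega
        rw [h4]
        exact stab_le_stab_mul _ _
      have h5 : finrank K (stab (VH ^ (j + 1 + 1))) ≤ finrank K (stab B) := by
        have h6 : Subalgebra.toSubmodule (stab (VH ^ (j + 1 + 1))) ≤
            Subalgebra.toSubmodule (stab B) := fun x hx => h3 hx
        exact Submodule.finrank_mono h6
      have e1 : (j + 1 + 1) * finrank K VH = (j + 1) * finrank K VH + finrank K VH := by ring
      have e2 : (j + 1) * finrank K (stab B) = j * finrank K (stab B) + finrank K (stab B) := by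
        ring
      rw [e1, e2]
      omega
  set HW : Submodule K (X → K) := Hs * W with hHW
  have hHWorth : ∀ u ∈ HW, ∀ b ∈ B, ∑ x, u x * b x = 0 := by
    intro u hu b hb
    have e0 : ∑ x, u x * b x = (sumL : (X → K) →ₗ[K] K) (u * b) := by
      rw [sumL_apply]; rfl
    rw [e0]
    rw [hHW] at hu
    induction hu using Submodule.mul_induction_on' with
    | add x _ y _ hx hy =>
      rw [add_mul, map_add]
      rw [hx (by rw [sumL_apply]; rfl), hy (by rw [sumL_apply]; rfl), add_zero]
    | mem_mul_mem g hg w hw =>
      have e1 : g * w * b = (g * b) * w := by ring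
      rw [e1]
      apply orth (n + 1) (g * b) (hg b hb) 1 le_rfl (by omega)
      rw [pow_one]
      exact hw
  have hdisj : Hs ⊓ HW = ⊥ := by
    rw [eq_bot_iff]
    rintro f ⟨hf1, hf2⟩
    rw [Submodule.mem_bot]
    funext p
    classical
    set t : X → K := fun x => if f x = f p then 1 else 0 with ht
    have htH : t ∈ stab B := by
      apply mem_of_const
      intro x y hxy
      simp only [ht]
      rw [hxy f hf1]
    have h0 := hHWorth f hf2 t (hHleB htH)
    have e1 : ∑ x, f x * t x = f p * ((Finset.univ.filter fun x => f x = f p).card : K) := by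
      rw [Finset.card_eq_sum_ones, Nat.cast_sum, Finset.mul_sum, Finset.sum_filter]
      apply Finset.sum_congr rfl
      intro x _
      simp only [ht]
      by_cases hx : f x = f p
      · rw [if_pos hx, if_pos hx, hx, Nat.cast_one]
      · rw [if_neg hx, if_neg hx, mul_zero]
    rw [e1] at h0
    rcases mul_eq_zero.mp h0 with h1 | h1
    · exact h1
    · exfalso
      rw [Nat.cast_eq_zero, Finset.card_eq_zero] at h1
      have : p ∈ Finset.univ.filter fun x => f x = f p := by simp
      rw [h1] at this
      exact absurd this (Finset.notMem_empty _)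
  have hVHsum : finrank K VH = finrank K (stab B) + finrank K HW := by
    have e1 : VH = Hs ⊔ HW := by
      rw [hVH, hV, Submodule.mul_sup, mul_one]
    have e2 := Submodule.finrank_sup_add_finrank_inf_eq Hs HW
    rw [hdisj, finrank_bot, add_zero, ← e1] at e2
    exact e2
  have hWle : finrank K W ≤ finrank K HW := by
    apply Submodule.finrank_mono
    calc W = 1 * W := (one_mul W).symm
      _ ≤ Hs * W := mul_le_mul' h1H le_rfl
  have hHpos : 1 ≤ finrank K (stab B) := by
    have h2 : (1 : Submodule K (X → K)) ≠ ⊥ := one_ne_zero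
    have h3 : 1 ≤ finrank K (1 : Submodule K (X → K)) := by
      rw [Nat.one_le_iff_ne_zero, Ne, Submodule.finrank_eq_zero]
      exact h2
    exact le_trans h3 (Submodule.finrank_mono h1H)
  have hfin := hkn n le_rfl
  rw [hVHB, hVHsum] at hfin
  have horth := finrank_add_le_of_orth HW B hHWorth
  have e3 : (n + 1) * (finrank K (stab B) + finrank K HW) =
      n * finrank K (stab B) + finrank K (stab B) + (n + 1) * finrank K HW := by ring
  have e4 : (n + 2) * finrank K W ≤ (n + 2) * finrank K HW := Nat.mul_le_mul_left _ hWle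
  have e5 : (n + 2) * finrank K HW = (n + 1) * finrank K HW + finrank K HW := by ring
  rw [e3] at hfin
  omega

end H1DC
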