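import Pool.Agent.Helper1x.DC.PermExp
import Pool.Agent.Helper1x.DC.Null

/-! # Linear spaces through the base point on which the permanent vanishes are small -/

namespace H1DC

open Finset Submodule Module

set_option linter.unusedSectionVars false

variable {K : Type*} [Field K] [CharZero K]

/-- the linear conditions defining `Adm` (one redundant column condition dropped) -/
def cond (k : ℕ) : (Fin (k + 2) × Fin (k + 2) → K) →ₗ[K]
    (Fin (k + 2) ⊕ Fin (k + 1) ⊕ Fin (k + 1) ⊕ Fin k → K) where
  toFun w := fun s => match s with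
    | Sum.inl j => w (0, j)
    | Sum.inr (Sum.inl i) => w (i.succ, 0)
    | Sum.inr (Sum.inr (Sum.inl i)) => ∑ j, w (i.succ, j)
    | Sum.inr (Sum.inr (Sum.inr j)) => ∑ i, w (i, j.succ.succ)
  map_add' := by
    intro w w'
    funext s
    rcases s with j | i | i | j <;> simp [sum_add_distrib]
  map_smul' := by
    intro c w
    funext s
    rcases s with j | i | i | j <;> simp [mul_sum]

lemma adm_of_cond {k : ℕ} (w : Fin (k + 2) × Fin (k + 2) → K) (h : cond k w = 0) : Adm w := by
  have hrow0 : ∀ j, w (0, j) = 0 := fun j => congrFun h (Sum.inl j)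
  have hcol0' : ∀ i : Fin (k + 1), w (i.succ, 0) = 0 := fun i =>
    congrFun h (Sum.inr (Sum.inl i))
  have hrows' : ∀ i : Fin (k + 1), ∑ j, w (i.succ, j) = 0 := fun i =>
    congrFun h (Sum.inr (Sum.inr (Sum.inl i)))
  have hcols' : ∀ j : Fin k, ∑ i, w (i, j.succ.succ) = 0 := fun j =>
    congrFun h (Sum.inr (Sum.inr (Sum.inr j)))
  have hcol0 : ∀ i, w (i, 0) = 0 := by
    intro i
    refine Fin.cases (hrow0 0) (fun i => hcol0' i) i
  have hrows : ∀ i, ∑ j, w (i, j) = 0 := by
    intro i
    refine Fin.cases ?_ (fun i => hrows' i) i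
    exact sum_eq_zero fun j _ => hrow0 j
  refine ⟨hrow0, hcol0, hrows, ?_⟩
  intro j
  refine Fin.cases ?_ (fun j => ?_) j
  · exact sum_eq_zero fun i _ => hcol0 i
  · refine Fin.cases ?_ (fun j => hcols' j) j
    have htot : ∑ j, ∑ i, w (i, j) = 0 := by
      rw [sum_comm]
      exact sum_eq_zero fun i _ => hrows i
    have s0 : ∑ i, w (i, 0) = 0 := sum_eq_zero fun i _ => hcol0 i
    have s1 : ∑ j : Fin k, ∑ i, w (i, j.succ.succ) = 0 := sum_eq_zero fun j _ => hcols' j
    rw [Fin.sum_univ_succ (fun j => ∑ i, w (i, j)),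
      Fin.sum_univ_succ (fun j : Fin (k + 1) => ∑ i, w (i, j.succ)), s0, s1, zero_add,
      add_zero] at htot
    exact htot

/-- restriction to the inner block as a linear map -/
def innerL (N : ℕ) : (Fin (N + 1) × Fin (N + 1) → K) →ₗ[K] (Fin N × Fin N → K) where
  toFun w := inner w
  map_add' _ _ := rfl
  map_smul' _ _ := rfl

theorem dim_bound {k : ℕ} (W : Submodule K (Fin (k + 2) × Fin (k + 2) → K))
    (hW : ∀ w ∈ W, permF (fun p => basePt K (k + 1) p + w p) = 0) :
    3 * finrank K W + 1 ≤ (k + 1) ^ 2 + 12 * (k + 1) := by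
  set W₁ : Submodule K (Fin (k + 2) × Fin (k + 2) → K) := W ⊓ LinearMap.ker (cond k) with hW₁
  have hadm : ∀ w ∈ W₁, Adm w := fun w hw => adm_of_cond w hw.2
  have hinj : Function.Injective ((innerL (K := K) (k + 1)).domRestrict W₁) := by
    rw [← LinearMap.ker_eq_bot, eq_bot_iff]
    rintro ⟨w, hw⟩ hker
    have hker' : ∀ i j : Fin (k + 1), w (i.succ, j.succ) = 0 := fun i j =>
      congrFun (show inner w = 0 from hker) (i, j)
    rw [Submodule.mem_bot]
    apply Subtype.ext
    funext ⟨i, j⟩
    have ha := hadm w hw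
    refine Fin.cases (ha.row0 j) (fun i => ?_) i
    refine Fin.cases (ha.col0 _) (fun j => hker' i j) j
  have hW₂ : finrank K (W₁.map (innerL (k + 1))) = finrank K W₁ := by
    rw [← LinearMap.range_domRestrict]
    exact LinearMap.finrank_range_of_inj hinj
  have hnull := null_bound (W₁.map (innerL (k + 1))) 3 (by norm_num) (by
    rintro _ ⟨w, hw, rfl⟩ j h1 h3
    exact inner_sums w (hadm w hw) (fun t => hW (t • w) (W.smul_mem t hw.1)) j h1 h3)
  rw [hW₂, Fintype.card_prod, Fintype.card_fin] at hnull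
  -- codimension
  have hcod : finrank K W ≤ finrank K W₁ + 4 * (k + 1) := by
    have e1 := Submodule.finrank_sup_add_finrank_inf_eq W (LinearMap.ker (cond (K := K) k))
    have e2 := LinearMap.finrank_range_add_finrank_ker (cond (K := K) k)
    have e3 : finrank K (LinearMap.range (cond (K := K) k)) ≤ 4 * (k + 1) := by
      have := Submodule.finrank_le (LinearMap.range (cond (K := K) k))
      rw [Module.finrank_fintype_fun_eq_card] at this
      simp only [Fintype.card_sum, Fintype.card_fin] at this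
      omega
    have e4 : finrank K ↥(W ⊔ LinearMap.ker (cond (K := K) k)) ≤
      finrank K (Fin (k + 2) × Fin (k + 2) → K) := Submodule.finrank_le _
    rw [← hW₁] at e1
    omega
  have e5 : (k + 1) * (k + 1) = (k + 1) ^ 2 := by ring
  omega

/-- arithmetic form -/
theorem dc_arith (n m d : ℕ) (h : n * n ≤ d + m)
    (hd : ∀ k, n = k + 2 → 3 * d + 1 ≤ (k + 1) ^ 2 + 12 * (k + 1)) :
    2 * ((n - 2) * (n - 3)) ≤ 3 * m := by
  rcases Nat.lt_or_ge n 3 with hn | hn
  · have : n - 2 = 0 := by omega
    rw [this]; simp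
  · obtain ⟨k, rfl⟩ : ∃ k, n = k + 3 := ⟨n - 3, by omega⟩
    have h1 := hd (k + 1) rfl
    have e1 : k + 3 - 2 = k + 1 := by omega
    have e2 : k + 3 - 3 = k := by omega
    rw [e1, e2]
    nlinarith

end H1DC
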