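import Mathlib

/-! # A linear space of zeros through every zero of a determinant of affine-linear forms -/

namespace H1DC

open Finset Submodule Module MvPolynomial

set_option linter.unusedSectionVars false

variable {K σ : Type*} [Field K] [Fintype σ] [DecidableEq σ]

lemma affine_eval (f : MvPolynomial σ K) (hf : f.totalDegree ≤ 1) (x : σ → K) :
    eval x f = coeff 0 f + ∑ s, coeff (Finsupp.single s 1) f * x s := by
  have hfe : f = C (coeff 0 f) + ∑ s, C (coeff (Finsupp.single s 1) f) * X s := by
    ext d
    rw [coeff_add, coeff_C, coeff_sum]
    simp only [coeff_C_mul, coeff_X]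
    by_cases hd : d = 0
    · subst hd
      rw [if_pos rfl, sum_eq_zero, add_zero]
      intro s _
      rw [if_neg, mul_zero]
      exact Finsupp.single_ne_zero.mpr one_ne_zero
    · rw [if_neg (Ne.symm hd), zero_add]
      obtain ⟨s, hs⟩ : ∃ s, d s ≠ 0 := by
        by_contra hno
        push Not at hno
        exact hd (Finsupp.ext hno)
      by_cases hds : Finsupp.single s 1 = d
      · rw [sum_eq_single s]
        · rw [if_pos hds, mul_one, hds]
        · intro t _ hts
          rw [if_neg, mul_zero]
          intro h
          rw [← hds] at h
          exact hts (Finsupp.single_left_injective one_ne_zero h)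
        · intro h
          exact absurd (mem_univ _) h
      · have hdeg : 2 ≤ ∑ t ∈ d.support, d t := by
          by_contra hlt
          push Not at hlt
          apply hds
          have hs1 : d s ≤ ∑ t ∈ d.support, d t :=
            single_le_sum (f := fun t => d t) (fun _ _ => Nat.zero_le _)
              (Finsupp.mem_support_iff.mpr hs)
          ext t
          by_cases hts : t = s
          · subst hts
            rw [Finsupp.single_eq_same]
            omega
          · rw [Finsupp.single_eq_of_ne hts]
            by_contra ht
            have hts' : ({s, t} : Finset σ) ⊆ d.support := by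
              intro u hu
              rw [mem_insert, mem_singleton] at hu
              rcases hu with rfl | rfl
              · exact Finsupp.mem_support_iff.mpr hs
              · exact Finsupp.mem_support_iff.mpr (Ne.symm ht)
            have := sum_le_sum_of_subset (f := fun t => d t) hts'
            rw [sum_pair (Ne.symm hts)] at this
            have ht1 : d t ≠ 0 := Ne.symm ht
            omega
        rw [coeff_eq_zero_of_totalDegree_lt (lt_of_le_of_lt hf hdeg)]
        symm
        apply sum_eq_zero
        intro t _
        by_cases hts : Finsupp.single t 1 = d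
        · exfalso
          apply hds
          have : s = t := by
            by_contra hst
            apply hs
            rw [← hts, Finsupp.single_eq_of_ne hst]
          rw [this]; exact hts
        · rw [if_neg hts, mul_zero]
  conv_lhs => rw [hfe]
  simp [eval_C, eval_X]

/-- linear part of an affine-linear polynomial, as a linear map in the direction -/
noncomputable def linPart (f : MvPolynomial σ K) : (σ → K) →ₗ[K] K :=
  ∑ s, coeff (Finsupp.single s 1) f • LinearMap.proj s

lemma linPart_apply (f : MvPolynomial σ K) (w : σ → K) :
    linPart f w = ∑ s, coeff (Finsupp.single s 1) f * w s := by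
  simp [linPart]

lemma eval_add_affine (f : MvPolynomial σ K) (hf : f.totalDegree ≤ 1) (x w : σ → K) :
    eval (fun s => x s + w s) f = eval x f + linPart f w := by
  rw [affine_eval f hf, affine_eval f hf, linPart_apply, add_assoc, ← sum_add_distrib]
  congr 1
  apply sum_congr rfl
  intro s _
  ring

theorem exists_subspace {m : ℕ} (A : Matrix (Fin m) (Fin m) (MvPolynomial σ K))
    (hA : ∀ i j, (A i j).totalDegree ≤ 1) (x₀ : σ → K) (h0 : eval x₀ A.det = 0) :
    ∃ W : Submodule K (σ → K), Fintype.card σ ≤ finrank K W + m ∧
      ∀ w ∈ W, eval (fun s => x₀ s + w s) A.det = 0 := by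
  have hdet : ∀ x : σ → K, eval x A.det = (A.map (eval x)).det := by
    intro x
    rw [RingHom.map_det]
    rfl
  rw [hdet] at h0
  obtain ⟨v, hv, hv0⟩ := Matrix.exists_vecMul_eq_zero_iff.mpr h0
  let φ : (σ → K) →ₗ[K] (Fin m → K) := LinearMap.pi fun j => ∑ i, v i • linPart (A i j)
  refine ⟨LinearMap.ker φ, ?_, ?_⟩
  · have e1 := LinearMap.finrank_range_add_finrank_ker φ
    have e2 := Submodule.finrank_le (LinearMap.range φ)
    rw [Module.finrank_fintype_fun_eq_card] at e1 e2
    rw [Fintype.card_fin] at e2
    omega
  · intro w hw
    rw [hdet]
    apply Matrix.exists_vecMul_eq_zero_iff.mp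
    refine ⟨v, hv, ?_⟩
    funext j
    have h1 := congrFun hv0 j
    have h2 : φ w j = 0 := congrFun hw j
    simp only [φ, LinearMap.pi_apply, LinearMap.sum_apply, LinearMap.smul_apply,
      smul_eq_mul] at h2
    simp only [Matrix.vecMul, dotProduct, Matrix.map_apply, Pi.zero_apply] at h1 ⊢
    rw [← h1]
    have h3 : ∀ i, v i * eval (fun s => x₀ s + w s) (A i j) =
        v i * eval x₀ (A i j) + v i * linPart (A i j) w := by
      intro i
      rw [eval_add_affine _ (hA i j)]; ring
    rw [sum_congr rfl fun i _ => h3 i, sum_add_distrib, h2, add_zero]

end H1DC
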