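import Pool.Agent.Helper1x.DC.Dim
import Pool.Agent.Helper1x.DC.Sub

/-! # The determinantal complexity of the permanent is at least `2 (n-2) (n-3) / 3` -/

namespace H1DC

open Finset Submodule Module MvPolynomial

set_option linter.unusedSectionVars false

variable {K : Type*} [Field K] [CharZero K]

lemma permF_basePt (N : ℕ) : permF (basePt K N) = 0 := by
  have hadm : Adm (0 : Fin (N + 1) × Fin (N + 1) → K) :=
    ⟨fun _ => rfl, fun _ => rfl, fun _ => by simp, fun _ => by simp⟩
  have h := permF_expand (K := K) (0 : Fin (N + 1) × Fin (N + 1) → K) hadm 0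
  have e : (fun p => basePt K N p + 0 * (0 : Fin (N + 1) × Fin (N + 1) → K) p) = basePt K N := by
    funext p; simp
  rw [e] at h
  rw [h]
  apply sum_eq_zero
  intro S _
  rcases S.eq_empty_or_nonempty with hS | hS
  · subst hS
    simp only [coefS, prod_empty, card_empty, pow_zero, one_mul, sum_const, card_univ,
      Fintype.card_perm, Fintype.card_fin, nsmul_eq_mul, mul_one]
    rw [Nat.factorial_succ]
    push_cast
    ring
  · rw [zero_pow (card_ne_zero.mpr hS), zero_mul]

/-- the permanent polynomial -/
lemma eval_perm {n : ℕ} (x : Fin n × Fin n → K) :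
    eval x (Matrix.of fun i j : Fin n =>
      (X (i, j) : MvPolynomial (Fin n × Fin n) K)).permanent = permF x := by
  rw [permF_eq, Matrix.permanent, map_sum]
  apply sum_congr rfl
  intro σ _
  rw [map_prod]
  apply prod_congr rfl
  intro i _
  simp

theorem dc_perm (n m : ℕ) (A : Matrix (Fin m) (Fin m) (MvPolynomial (Fin n × Fin n) K))
    (hA : ∀ i j, (A i j).totalDegree ≤ 1)
    (hdet : A.det = (Matrix.of fun i j : Fin n =>
      (X (i, j) : MvPolynomial (Fin n × Fin n) K)).permanent) :
    2 * ((n - 2) * (n - 3)) ≤ 3 * m := by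
  rcases Nat.lt_or_ge n 3 with hn | hn
  · have : n - 2 = 0 := by omega
    rw [this]; simp
  obtain ⟨k, rfl⟩ : ∃ k, n = k + 2 := ⟨n - 2, by omega⟩
  have h0 : eval (basePt K (k + 1)) A.det = 0 := by
    rw [hdet, eval_perm, permF_basePt]
  obtain ⟨W, hdim, hW⟩ := exists_subspace A hA _ h0
  rw [Fintype.card_prod, Fintype.card_fin] at hdim
  apply dc_arith (k + 2) m (finrank K W) hdim
  intro k' hk'
  have hkk : k' = k := by omega
  subst hkk
  apply dim_bound W
  intro w hw
  have := hW w hw
  rwa [hdet, eval_perm] at this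

end H1DC
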