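import Mathlib

/-! # A Kneser-type theorem for products of subspaces of `X → K`

`K` an infinite field and `X` a finite type. For subspaces `S, T` of the algebra `X → K` containing
units, `dim S + dim T ≤ dim (S * T) + dim (stab (S * T))`. -/

namespace H1DC

open Submodule Module

set_option linter.unusedSectionVars false

variable {K X : Type*} [Field K] [Finite X]

/-- The stabilizer of a subspace: a subalgebra. -/
def stab (B : Submodule K (X → K)) : Subalgebra K (X → K) where
  carrier := {g | ∀ b ∈ B, g * b ∈ B}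
  mul_mem' := by intro a b ha hb c hc; rw [mul_assoc]; exact ha _ (hb _ hc)
  add_mem' := by intro a b ha hb c hc; rw [add_mul]; exact B.add_mem (ha _ hc) (hb _ hc)
  algebraMap_mem' := by
    intro r c hc
    rw [← Algebra.smul_def]; exact B.smul_mem _ hc

lemma mem_stab {B : Submodule K (X → K)} {g : X → K} :
    g ∈ stab B ↔ ∀ b ∈ B, g * b ∈ B := Iff.rfl

/-- Finite Stone–Weierstrass: a function constant on the classes of a subalgebra lies in it. -/
lemma mem_of_const (T : Subalgebra K (X → K)) (f : X → K)
    (hf : ∀ p q, (∀ t ∈ T, t p = t q) → f p = f q) : f ∈ T := by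
  classical
  have := Fintype.ofFinite X
  have key : ∀ p : X, ∃ e ∈ T, (∀ q, (∀ t ∈ T, t p = t q) → e q = 1) ∧
      (∀ q, (¬ ∀ t ∈ T, t p = t q) → e q = 0) := by
    intro p
    have h1 : ∀ q, (¬ ∀ t ∈ T, t p = t q) → ∃ t ∈ T, t p = 1 ∧ t q = 0 := by
      intro q hq
      push Not at hq
      obtain ⟨t, ht, hne⟩ := hq
      refine ⟨(t p - t q)⁻¹ • (t - algebraMap K (X → K) (t q)), ?_, ?_, ?_⟩
      · exact T.smul_mem (T.sub_mem ht (T.algebraMap_mem _)) _
      · simp [Algebra.algebraMap_eq_smul_one]
        exact inv_mul_cancel₀ (sub_ne_zero.mpr hne)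
      · simp [Algebra.algebraMap_eq_smul_one]
    have h2 : ∀ q, ∃ t ∈ T, t p = 1 ∧ ((¬ ∀ t ∈ T, t p = t q) → t q = 0) := by
      intro q
      by_cases hq : ∀ t ∈ T, t p = t q
      · exact ⟨1, T.one_mem, rfl, fun h => absurd hq h⟩
      · obtain ⟨t, ht, h1, h0⟩ := h1 q hq
        exact ⟨t, ht, h1, fun _ => h0⟩
    choose t htT ht1 ht0 using h2
    refine ⟨∏ q, t q, T.prod_mem fun q _ => htT q, ?_, ?_⟩
    · intro q hq
      rw [Finset.prod_apply]
      apply Finset.prod_eq_one
      intro r _
      rw [← hq _ (htT r), ht1]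
    · intro q hq
      rw [Finset.prod_apply]
      exact Finset.prod_eq_zero (Finset.mem_univ q) (ht0 q hq)
  choose e heT he1 he0 using key
  let s : Setoid X := ⟨fun p q => ∀ t ∈ T, t p = t q, fun _ _ _ => rfl,
    fun h t ht => (h t ht).symm, fun h h' t ht => (h t ht).trans (h' t ht)⟩
  have hsum : f = ∑ c : Quotient s, f c.out • e c.out := by
    funext x
    rw [Finset.sum_apply, Finset.sum_eq_single (Quotient.mk s x)]
    · have hx : s.r (Quotient.mk s x).out x := Quotient.mk_out x
      rw [Pi.smul_apply, he1 _ _ hx, hf _ _ hx, smul_eq_mul, mul_one]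
    · intro c _ hc
      have hx : ¬ s.r c.out x := by
        intro h
        apply hc
        rw [← Quotient.out_eq c]
        exact Quotient.sound h
      rw [Pi.smul_apply, he0 _ _ hx, smul_zero]
    · intro h
      exact absurd (Finset.mem_univ _) h
  rw [hsum]
  exact T.sum_mem fun c _ => T.smul_mem (heT _) _

/-- There are only finitely many subalgebras of `X → K`. -/
instance finite_subalgebra : Finite (Subalgebra K (X → K)) := by
  classical
  apply Finite.of_injective (fun T : Subalgebra K (X → K) => fun p q : X =>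
    (∀ t ∈ T, t p = t q : Prop))
  intro T T' h
  have h' : ∀ p q, (∀ t ∈ T, t p = t q) ↔ (∀ t ∈ T', t p = t q) := fun p q =>
    iff_of_eq (congrFun (congrFun h p) q)
  apply le_antisymm
  · intro f hf
    exact mem_of_const T' f fun p q hpq => (h' p q).mpr hpq f hf
  · intro f hf
    exact mem_of_const T f fun p q hpq => (h' p q).mp hpq f hf

/-- A subspace covered by finitely many subspaces is contained in one of them. -/
lemma le_of_cover [Infinite K] {M : Type*} [AddCommGroup M] [Module K M] (V : Submodule K M)
    {ι : Type*} [Finite ι] (P : ι → Submodule K M) (h : ∀ v ∈ V, ∃ i, v ∈ P i) :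
    ∃ i, V ≤ P i := by
  have hc : ⋃ i, ((P i).comap V.subtype : Set V) = Set.univ := by
    apply Set.eq_univ_of_forall
    intro v
    obtain ⟨i, hi⟩ := h v v.2
    exact Set.mem_iUnion.mpr ⟨i, hi⟩
  obtain ⟨i, hi⟩ := Subspace.exists_eq_top_of_iUnion_eq_univ hc
  refine ⟨i, fun v hv => ?_⟩
  have : (⟨v, hv⟩ : V) ∈ (P i).comap V.subtype := by rw [hi]; trivial
  exact this

/-- functions of `X → K` vanishing at `x` -/
def vanish (K : Type*) {X : Type*} [Field K] (x : X) : Submodule K (X → K) :=
  LinearMap.ker (LinearMap.proj x : (X → K) →ₗ[K] K)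

lemma mem_vanish {x : X} {f : X → K} : f ∈ vanish K x ↔ f x = 0 := Iff.rfl

/-- if all units of `V` lie in `P` and `V` contains a unit then `V ≤ P`. -/
lemma le_of_units [Infinite K] (V P : Submodule K (X → K)) (e₀ : X → K) (he₀ : e₀ ∈ V)
    (hu : ∀ x, e₀ x ≠ 0) (h : ∀ v ∈ V, (∀ x, v x ≠ 0) → v ∈ P) : V ≤ P := by
  obtain ⟨i, hi⟩ := le_of_cover V (ι := Option X)
    (fun o => match o with | none => P | some x => vanish K x) (by
      intro v hv
      by_cases hvx : ∀ x, v x ≠ 0
      · exact ⟨none, h v hv hvx⟩
      · push Not at hvx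
        obtain ⟨x, hx⟩ := hvx
        exact ⟨some x, hx⟩)
  cases i with
  | none => exact hi
  | some x => exact absurd (hi he₀) (hu x)

/-- multiplication by a function as a linear map -/
abbrev mulE (e : X → K) : (X → K) →ₗ[K] (X → K) := LinearMap.mulRight K e

lemma mulE_injective {e : X → K} (he : ∀ x, e x ≠ 0) : Function.Injective (mulE e) := by
  intro f g h
  funext x
  have := congrFun h x
  simp only [LinearMap.mulRight_apply, Pi.mul_apply] at this
  exact mul_right_cancel₀ (he x) this

lemma finrank_map_mulE {e : X → K} (he : ∀ x, e x ≠ 0) (A : Submodule K (X → K)) :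
    finrank K (A.map (mulE e)) = finrank K A :=
  (Submodule.equivMapOfInjective _ (mulE_injective he) A).finrank_eq.symm

/-- The e-transform argument. -/
theorem etransform [Infinite K] : ∀ (n : ℕ) (A B : Submodule K (X → K)), finrank K A = n →
    (1 : X → K) ∈ A → (∃ e ∈ B, ∀ x, e x ≠ 0) →
    ∃ (H : Subalgebra K (X → K)) (C : Submodule K (X → K)), (∀ h ∈ H, ∀ c ∈ C, h * c ∈ C) ∧
      B ≤ C ∧ C ≤ A * B ∧ finrank K A + finrank K B ≤ finrank K C + finrank K H := by
  intro n
  induction n using Nat.strong_induction_on with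
  | _ n ih =>
    intro A B hn h1 hB
    by_cases hcase : ∀ e ∈ B, (∀ x, e x ≠ 0) → ∀ a ∈ A, a * e ∈ B
    · -- `A B ⊆ B`
      obtain ⟨e₀, he₀, hu₀⟩ := hB
      have hAB : ∀ a ∈ A, ∀ b ∈ B, a * b ∈ B := by
        intro a ha
        have : B ≤ B.comap (LinearMap.mulLeft K a) := by
          apply le_of_units B _ e₀ he₀ hu₀
          intro v hv hvu
          exact hcase v hv hvu a ha
        intro b hb
        exact this hb
      refine ⟨stab B, B, fun h hh c hc => hh c hc, le_rfl, ?_, ?_⟩
      · intro b hb
        have := Submodule.mul_mem_mul h1 hb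
        rwa [one_mul] at this
      · have : A ≤ Subalgebra.toSubmodule (stab B) := fun a ha b hb => hAB a ha b hb
        have := Submodule.finrank_mono this
        have h2 : finrank K (Subalgebra.toSubmodule (stab B)) = finrank K (stab B) := rfl
        omega
    · push Not at hcase
      obtain ⟨e, he, hu, a, ha, hae⟩ := hcase
      set A' : Submodule K (X → K) := A ⊓ B.comap (mulE e) with hA'
      set B' : Submodule K (X → K) := B ⊔ A.map (mulE e) with hB'
      have h1' : (1 : X → K) ∈ A' := by
        refine ⟨h1, ?_⟩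
        change (1 : X → K) * e ∈ B
        rw [one_mul]
        exact he
      have hlt : A' < A := by
        refine lt_of_le_of_ne inf_le_left ?_
        intro h
        have : a ∈ A' := by rw [h]; exact ha
        exact hae this.2
      have hfl : finrank K A' < n := by
        rw [← hn]; exact Submodule.finrank_lt_finrank_of_lt hlt
      have heB' : ∃ e ∈ B', ∀ x, e x ≠ 0 := ⟨e, Submodule.mem_sup_left he, hu⟩
      obtain ⟨H, C, hHC, hBC, hCA, hdim⟩ := ih _ hfl A' B' rfl h1' heB'
      have hmap : A'.map (mulE e) = B ⊓ A.map (mulE e) := by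
        ext y
        constructor
        · rintro ⟨z, ⟨hz1, hz2⟩, rfl⟩
          exact ⟨hz2, Submodule.mem_map_of_mem hz1⟩
        · rintro ⟨hy, z, hz, rfl⟩
          exact ⟨z, ⟨hz, hy⟩, rfl⟩
      have hs := Submodule.finrank_sup_add_finrank_inf_eq B (A.map (mulE e))
      rw [← hmap, finrank_map_mulE hu, finrank_map_mulE hu, ← hB'] at hs
      refine ⟨H, C, hHC, le_trans le_sup_left hBC, le_trans hCA ?_, by omega⟩
      rw [Submodule.mul_le]
      intro m hm n' hn'
      obtain ⟨b, hb, z, hz, rfl⟩ := Submodule.mem_sup.mp hn'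
      obtain ⟨a', ha', rfl⟩ := hz
      rw [mul_add]
      refine Submodule.add_mem _ (Submodule.mul_mem_mul hm.1 hb) ?_
      have : m * mulE e a' = a' * mulE e m := by
        simp only [LinearMap.mulRight_apply]; ring
      rw [this]
      exact Submodule.mul_mem_mul ha' hm.2

/-- The Kneser-type inequality for subspaces of `X → K` containing units. -/
theorem kneser [Infinite K] (S T : Submodule K (X → K)) (hS : ∃ e ∈ S, ∀ x, e x ≠ 0)
    (hT : ∃ e ∈ T, ∀ x, e x ≠ 0) :
    finrank K S + finrank K T ≤ finrank K ↥(S * T) + finrank K (stab (S * T)) := by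
  classical
  rcases isEmpty_or_nonempty X with hX | hX
  · have hsub : Subsingleton (X → K) := inferInstance
    have : ∀ U : Submodule K (X → K), finrank K U = 0 := fun U =>
      Module.finrank_zero_of_subsingleton
    rw [this S, this T]; exact Nat.zero_le _
  · obtain ⟨e₀, he₀, hu₀⟩ := hS
    have key : ∀ x ∈ S, (∀ i, x i ≠ 0) → ∃ (H : Subalgebra K (X → K))
        (D : Submodule K (X → K)), (∀ h ∈ H, ∀ c ∈ D, h * c ∈ D) ∧
        (∀ t ∈ T, x * t ∈ D) ∧ D ≤ S * T ∧
        finrank K S + finrank K T ≤ finrank K D + finrank K H := by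
      intro x hx hux
      have hui : ∀ i, x⁻¹ i ≠ 0 := fun i => inv_ne_zero (hux i)
      have hxx : x * x⁻¹ = 1 := by
        funext i; exact mul_inv_cancel₀ (hux i)
      have h1 : (1 : X → K) ∈ S.map (mulE x⁻¹) := by
        refine ⟨x, hx, ?_⟩
        simp only [LinearMap.mulRight_apply]
        exact hxx
      obtain ⟨H, C, hHC, hTC, hCA, hdim⟩ := etransform _ (S.map (mulE x⁻¹)) T rfl h1 hT
      rw [finrank_map_mulE hui] at hdim
      refine ⟨H, C.map (mulE x), ?_, ?_, ?_, ?_⟩
      · rintro h hh _ ⟨c, hc, rfl⟩
        refine ⟨h * c, hHC h hh c hc, ?_⟩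
        simp only [LinearMap.mulRight_apply]; ring
      · intro t ht
        refine ⟨t, hTC ht, ?_⟩
        simp only [LinearMap.mulRight_apply]; ring
      · rintro _ ⟨c, hc, rfl⟩
        have hc' := hCA hc
        have : S.map (mulE x⁻¹) * T ≤ (S * T).comap (mulE x) := by
          rw [Submodule.mul_le]
          rintro _ ⟨s, hs, rfl⟩ t ht
          have h3 : mulE x (mulE x⁻¹ s * t) = s * t := by
            simp only [LinearMap.mulRight_apply]
            calc s * x⁻¹ * t * x = s * t * (x * x⁻¹) := by ring
              _ = s * t := by rw [hxx, mul_one]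
          rw [Submodule.mem_comap, h3]
          exact Submodule.mul_mem_mul hs ht
        exact this hc'
      · rw [finrank_map_mulE hux]; exact hdim
    choose! Hx Dx h1 h2 h3 h4 using key
    -- cover of `S`
    obtain ⟨i, hi⟩ := le_of_cover S (ι := Subalgebra K (X → K) ⊕ X)
      (fun o => match o with
        | Sum.inl H => Submodule.span K {x | x ∈ S ∧ (∀ i, x i ≠ 0) ∧ Hx x = H}
        | Sum.inr x => vanish K x) (by
        intro v hv
        by_cases hvx : ∀ x, v x ≠ 0
        · exact ⟨Sum.inl (Hx v), Submodule.subset_span ⟨hv, hvx, rfl⟩⟩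
        · push Not at hvx
          obtain ⟨x, hx⟩ := hvx
          exact ⟨Sum.inr x, hx⟩)
    cases i with
    | inr x => exact absurd (hi he₀) (hu₀ x)
    | inl H =>
      change S ≤ Submodule.span K {x | x ∈ S ∧ (∀ i, x i ≠ 0) ∧ Hx x = H} at hi
      have hne : ∃ x, x ∈ S ∧ (∀ i, x i ≠ 0) ∧ Hx x = H := by
        by_contra hno
        have hempty : {x | x ∈ S ∧ (∀ i, x i ≠ 0) ∧ Hx x = H} = ∅ := by
          apply Set.eq_empty_of_forall_notMem
          intro x hx
          exact hno ⟨x, hx⟩
        rw [hempty, Submodule.span_empty] at hi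
        have h0 : e₀ = 0 := by simpa using hi he₀
        obtain ⟨p⟩ := hX
        exact hu₀ p (congrFun h0 p)
      obtain ⟨x, hxS, hux, hxH⟩ := hne
      have hstab : ∀ h ∈ H, h ∈ stab (S * T) := by
        intro h hh
        rw [mem_stab]
        have hle : S * T ≤ (S * T).comap (LinearMap.mulLeft K h) := by
          rw [Submodule.mul_le]
          intro s hs t ht
          have hs' := hi hs
          have : ∀ s' ∈ Submodule.span K {x | x ∈ S ∧ (∀ i, x i ≠ 0) ∧ Hx x = H},
              s' * t ∈ (S * T).comap (LinearMap.mulLeft K h) := by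
            intro s' hs'
            induction hs' using Submodule.span_induction with
            | mem y hy =>
              obtain ⟨hyS, hyu, hyH⟩ := hy
              rw [Submodule.mem_comap, LinearMap.mulLeft_apply]
              apply h3 y hyS hyu
              apply h1 y hyS hyu h (by rw [hyH]; exact hh)
              exact h2 y hyS hyu t ht
            | zero => rw [zero_mul]; exact Submodule.zero_mem _
            | add y z _ _ hy hz => rw [add_mul]; exact Submodule.add_mem _ hy hz
            | smul c y _ hy => rw [smul_mul_assoc]; exact Submodule.smul_mem _ _ hy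
          exact this s hs'
        intro b hb
        exact hle hb
      have hH : finrank K H ≤ finrank K (stab (S * T)) := by
        have hle : Subalgebra.toSubmodule H ≤ Subalgebra.toSubmodule (stab (S * T)) :=
          fun h hh => hstab h hh
        exact Submodule.finrank_mono hle
      have hD : finrank K (Dx x) ≤ finrank K ↥(S * T) := Submodule.finrank_mono (h3 x hxS hux)
      have := h4 x hxS hux
      rw [hxH] at this
      omega

end H1DC
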