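import Pool.Agent.Helper1x.DC.PermSum

/-! # Taylor expansion of the permanent at `J - n E₁₁` -/

namespace H1DC

open Finset Equiv

set_option linter.unusedSectionVars false

variable {K : Type*} [Field K] [CharZero K]

/-- the base point: all ones, except `-N` in the corner (matrix of size `N+1`) -/
def basePt (K : Type*) [Field K] (N : ℕ) : Fin (N + 1) × Fin (N + 1) → K :=
  fun p => if p.1 = 0 ∧ p.2 = 0 then -(N : K) else 1

lemma basePt_succ (N : ℕ) (i : Fin (N + 1)) (j : Fin N) : basePt K N (i, j.succ) = 1 := by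
  unfold basePt
  rw [if_neg]
  rintro ⟨_, h⟩
  exact Fin.succ_ne_zero j h

lemma basePt_zero (N : ℕ) (i : Fin (N + 1)) :
    basePt K N (i, 0) = 1 - if i = 0 then ((N : K) + 1) else 0 := by
  unfold basePt
  by_cases h : i = 0
  · rw [if_pos ⟨h, rfl⟩, if_pos h]; ring
  · rw [if_neg (fun hh => h hh.1), if_neg h]; ring

/-- the permanent as a function -/
def permF {n : ℕ} (x : Fin n × Fin n → K) : K := (Matrix.of fun i j => x (i, j)).permanent

lemma permF_eq {n : ℕ} (x : Fin n × Fin n → K) :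
    permF x = ∑ σ : Perm (Fin n), ∏ i, x (σ i, i) := rfl

lemma sum_fix_zero {N : ℕ} (F : Perm (Fin (N + 1)) → K) (G : Perm (Fin N) → K)
    (h : ∀ σ τ, σ 0 = 0 → (∀ i, σ (Fin.succ i) = Fin.succ (τ i)) → F σ = G τ) :
    (∑ σ : Perm (Fin (N + 1)), if σ 0 = 0 then F σ else 0) = ∑ τ : Perm (Fin N), G τ := by
  rw [← Equiv.sum_comp (Equiv.Perm.decomposeFin (n := N)).symm, Fintype.sum_prod_type,
    Finset.sum_eq_single (0 : Fin (N + 1))]
  · apply sum_congr rfl
    intro e _
    rw [if_pos (Equiv.Perm.decomposeFin_symm_apply_zero 0 e)]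
    apply h _ _ (Equiv.Perm.decomposeFin_symm_apply_zero 0 e)
    intro i
    rw [Equiv.Perm.decomposeFin_symm_apply_succ, Equiv.swap_self]
    rfl
  · intro p _ hp
    apply sum_eq_zero
    intro e _
    rw [if_neg]
    rw [Equiv.Perm.decomposeFin_symm_apply_zero]
    exact hp
  · intro h0
    exact absurd (mem_univ _) h0

/-- the direction `w` vanishes on the first row and the first column -/
structure Adm {N : ℕ} (w : Fin (N + 1) × Fin (N + 1) → K) : Prop where
  row0 : ∀ j, w (0, j) = 0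
  col0 : ∀ i, w (i, 0) = 0
  rows : ∀ i, ∑ j, w (i, j) = 0
  cols : ∀ j, ∑ i, w (i, j) = 0

/-- the coefficient attached to a set of columns -/
def coefS {N : ℕ} (w : Fin (N + 1) × Fin (N + 1) → K) (S : Finset (Fin N)) : K :=
  (∑ σ : Perm (Fin (N + 1)), ∏ i ∈ S, w (σ i.succ, i.succ)) -
    ((N : K) + 1) * ∑ τ : Perm (Fin N), ∏ i ∈ S, w ((τ i).succ, i.succ)

lemma permF_expand {N : ℕ} (w : Fin (N + 1) × Fin (N + 1) → K) (hw : Adm w) (t : K) :
    permF (fun p => basePt K N p + t * w p) =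
      ∑ S ∈ (univ : Finset (Fin N)).powerset, t ^ S.card * coefS w S := by
  have h1 : ∀ σ : Perm (Fin (N + 1)),
      ∏ i, (basePt K N (σ i, i) + t * w (σ i, i)) =
      ∏ i : Fin N, (1 + t * w (σ i.succ, i.succ)) -
        if σ 0 = 0 then ((N : K) + 1) * ∏ i : Fin N, (1 + t * w (σ i.succ, i.succ)) else 0 := by
    intro σ
    rw [Fin.prod_univ_succ, hw.col0, mul_zero, add_zero, basePt_zero]
    have : ∀ i : Fin N, basePt K N (σ i.succ, i.succ) + t * w (σ i.succ, i.succ) =
        1 + t * w (σ i.succ, i.succ) := fun i => by rw [basePt_succ]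
    rw [prod_congr rfl fun i _ => this i]
    split_ifs with h <;> ring
  rw [permF_eq]
  rw [sum_congr rfl fun σ _ => h1 σ, sum_sub_distrib]
  rw [sum_fix_zero _ (fun τ => ((N : K) + 1) * ∏ i : Fin N, (1 + t * w ((τ i).succ, i.succ)))]
  · have h2 : ∀ a : Fin N → K, ∏ i : Fin N, (1 + t * a i) =
        ∑ S ∈ (univ : Finset (Fin N)).powerset, t ^ S.card * ∏ i ∈ S, a i := by
      intro a
      rw [prod_one_add]
      apply sum_congr rfl
      intro S _
      rw [prod_mul_distrib, prod_const]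
    rw [sum_congr rfl fun σ _ => h2 (fun i => w ((σ : Perm (Fin (N + 1))) i.succ, i.succ))]
    rw [← mul_sum]
    rw [sum_congr rfl fun τ _ => h2 (fun i => w (((τ : Perm (Fin N)) i).succ, i.succ))]
    rw [sum_comm]
    rw [sum_comm (s := (univ : Finset (Perm (Fin N))))]
    rw [mul_sum, ← sum_sub_distrib]
    apply sum_congr rfl
    intro S _
    unfold coefS
    rw [← mul_sum, ← mul_sum]
    ring
  · intro σ τ h0 hs
    congr 1
    apply prod_congr rfl
    intro i _
    rw [hs]

lemma coef_vanish {N : ℕ} (w : Fin (N + 1) × Fin (N + 1) → K) (hw : Adm w)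
    (h : ∀ t : K, permF (fun p => basePt K N p + t * w p) = 0) (k : ℕ) :
    ∑ S ∈ (univ : Finset (Fin N)).powersetCard k, coefS w S = 0 := by
  set p : Polynomial K := ∑ S ∈ (univ : Finset (Fin N)).powerset,
    Polynomial.C (coefS w S) * Polynomial.X ^ S.card with hp
  have hp0 : p = 0 := by
    apply Polynomial.funext
    intro t
    rw [Polynomial.eval_zero, ← h t, permF_expand w hw, hp, Polynomial.eval_finsetSum]
    apply sum_congr rfl
    intro S _
    simp only [Polynomial.eval_mul, Polynomial.eval_C, Polynomial.eval_pow, Polynomial.eval_X]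
    ring
  have hc : p.coeff k = 0 := by rw [hp0, Polynomial.coeff_zero]
  rw [hp, Polynomial.finsetSum_coeff] at hc
  rw [← hc, powersetCard_eq_filter, sum_filter]
  apply sum_congr rfl
  intro S _
  rw [Polynomial.coeff_C_mul, Polynomial.coeff_X_pow]
  by_cases hk : S.card = k
  · rw [if_pos hk, if_pos hk.symm, mul_one]
  · rw [if_neg hk, if_neg (Ne.symm hk), mul_zero]

/-- the inner block -/
def inner {N : ℕ} (w : Fin (N + 1) × Fin (N + 1) → K) : Fin N × Fin N → K :=
  fun p => w (p.1.succ, p.2.succ)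

lemma Adm.cols' {N : ℕ} {w : Fin (N + 1) × Fin (N + 1) → K} (hw : Adm w) (j : Fin N) :
    ∑ i : Fin N, w (i.succ, j.succ) = 0 := by
  have := hw.cols j.succ
  rwa [Fin.sum_univ_succ, hw.row0, zero_add] at this

lemma Adm.rows' {N : ℕ} {w : Fin (N + 1) × Fin (N + 1) → K} (hw : Adm w) (i : Fin N) :
    ∑ j : Fin N, w (i.succ, j.succ) = 0 := by
  have := hw.rows i.succ
  rwa [Fin.sum_univ_succ, hw.col0, zero_add] at this

lemma coefS_two {N : ℕ} (w : Fin (N + 1) × Fin (N + 1) → K) (hw : Adm w) (S : Finset (Fin N))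
    (hS : S.card = 2) :
    ((N : K) + 1) * (N * (((N : K) - 1) * coefS w S)) =
      2 * (((N + 1).factorial : K) * ∑ r : Fin N, ∏ i ∈ S, w (r.succ, i.succ)) := by
  obtain ⟨a, b, hab, rfl⟩ := card_eq_two.mp hS
  unfold coefS
  simp only [prod_pair hab]
  have e1 := perm_sum_two (K := K) a.succ b.succ (fun h => hab (Fin.succ_injective _ h))
    (fun r => w (r, a.succ)) (fun r => w (r, b.succ)) (hw.cols b.succ)
  have e2 := perm_sum_two (K := K) a b hab
    (fun r : Fin N => w (r.succ, a.succ)) (fun r => w (r.succ, b.succ)) (hw.cols' b)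
  rw [Fin.sum_univ_succ, hw.row0, zero_mul, zero_add, Fintype.card_fin] at e1
  rw [Fintype.card_fin] at e2
  rw [Nat.factorial_succ] at e1 ⊢
  push_cast at e1 e2 ⊢
  linear_combination ((N : K) - 1) * e1 - ((N : K) + 1) ^ 2 * e2

lemma coefS_three {N : ℕ} (w : Fin (N + 1) × Fin (N + 1) → K) (hw : Adm w)
    (S : Finset (Fin N)) (hS : S.card = 3) :
    ((N : K) + 1) * (N * (((N : K) - 1) * (((N : K) - 2) * coefS w S))) =
      - (6 * (((N + 1).factorial : K) * ∑ r : Fin N, ∏ i ∈ S, w (r.succ, i.succ))) := by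
  obtain ⟨a, b, c, hab, hac, hbc, rfl⟩ := card_eq_three.mp hS
  have hprod : ∀ F : Fin N → K, ∏ i ∈ ({a, b, c} : Finset (Fin N)), F i = F a * F b * F c := by
    intro F
    rw [prod_insert, prod_pair hbc]
    · ring
    · simp only [mem_insert, mem_singleton, not_or]; exact ⟨hab, hac⟩
  unfold coefS
  simp only [hprod]
  have hs : Function.Injective (Fin.succ : Fin N → Fin (N + 1)) := Fin.succ_injective _
  have e1 := perm_sum_three (K := K) a.succ b.succ c.succ (fun h => hab (hs h))
    (fun h => hac (hs h)) (fun h => hbc (hs h))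
    (fun r => w (r, a.succ)) (fun r => w (r, b.succ)) (fun r => w (r, c.succ))
    (hw.cols a.succ) (hw.cols b.succ) (hw.cols c.succ)
  have e2 := perm_sum_three (K := K) a b c hab hac hbc
    (fun r : Fin N => w (r.succ, a.succ)) (fun r => w (r.succ, b.succ))
    (fun r => w (r.succ, c.succ)) (hw.cols' a) (hw.cols' b) (hw.cols' c)
  rw [Fin.sum_univ_succ, hw.row0, zero_mul, zero_mul, zero_add, Fintype.card_fin] at e1
  rw [Fintype.card_fin] at e2
  rw [Nat.factorial_succ] at e1 ⊢
  push_cast at e1 e2 ⊢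
  linear_combination ((N : K) - 2) * e1 - ((N : K) + 1) ^ 2 * e2

/-- elementary symmetric functions of a zero-sum family -/
lemma esymm_two_three {N : ℕ} (a : Fin N → K) (ha : ∑ i, a i = 0) :
    2 * (∑ S ∈ (univ : Finset (Fin N)).powersetCard 2, ∏ i ∈ S, a i) = - ∑ i, a i ^ 2 ∧
    3 * (∑ S ∈ (univ : Finset (Fin N)).powersetCard 3, ∏ i ∈ S, a i) = ∑ i, a i ^ 3 := by
  have key : ∀ k, MvPolynomial.aeval a (MvPolynomial.esymm (Fin N) K k) =
      ∑ S ∈ (univ : Finset (Fin N)).powersetCard k, ∏ i ∈ S, a i := by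
    intro k
    simp [MvPolynomial.esymm]
  have keyp : ∀ k, MvPolynomial.aeval a (MvPolynomial.psum (Fin N) K k) = ∑ i, a i ^ k := by
    intro k
    simp [MvPolynomial.psum]
  have e0 : MvPolynomial.aeval a (MvPolynomial.esymm (Fin N) K 0) = 1 := by
    simp [MvPolynomial.esymm]
  have h2 := congrArg (MvPolynomial.aeval a) (MvPolynomial.mul_esymm_eq_sum (Fin N) K 2)
  have h3 := congrArg (MvPolynomial.aeval a) (MvPolynomial.mul_esymm_eq_sum (Fin N) K 3)
  have f2 : (antidiagonal 2).filter (fun x : ℕ × ℕ => x.1 < 2) = {(0, 2), (1, 1)} := by decide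
  have f3 : (antidiagonal 3).filter (fun x : ℕ × ℕ => x.1 < 3) = {(0, 3), (1, 2), (2, 1)} := by
    decide
  rw [f2] at h2
  rw [f3] at h3
  have e1 : MvPolynomial.aeval a (MvPolynomial.esymm (Fin N) K 1) = 0 := by
    rw [key, powersetCard_one, sum_map]
    simpa using ha
  constructor
  · rw [sum_pair (by decide)] at h2
    simp only [map_mul, map_add, map_pow, map_neg, map_one, map_natCast, e0, e1, keyp] at h2
    rw [key] at h2
    push_cast at h2
    rw [h2]; ring
  · rw [sum_insert (by decide), sum_pair (by decide)] at h3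
    simp only [map_mul, map_add, map_pow, map_neg, map_one, map_natCast, e0, e1, keyp, pow_one,
      ha] at h3
    rw [key] at h3
    push_cast at h3
    rw [h3]; ring

theorem inner_sums {N : ℕ} (w : Fin (N + 1) × Fin (N + 1) → K) (hw : Adm w)
    (h : ∀ t : K, permF (fun p => basePt K N p + t * w p) = 0) :
    ∀ j, 1 ≤ j → j ≤ 3 → ∑ p, inner w p ^ j = 0 := by
  have hfac : ((N + 1).factorial : K) ≠ 0 := Nat.cast_ne_zero.mpr (Nat.factorial_ne_zero _)
  have hswap : ∀ k, ∑ S ∈ (univ : Finset (Fin N)).powersetCard k,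
      ∑ r : Fin N, ∏ i ∈ S, w (r.succ, i.succ) =
      ∑ r : Fin N, ∑ S ∈ (univ : Finset (Fin N)).powersetCard k,
        ∏ i ∈ S, w (r.succ, i.succ) := fun k => sum_comm
  intro j h1 h3
  rw [Fintype.sum_prod_type]
  have hj : j = 1 ∨ j = 2 ∨ j = 3 := by omega
  rcases hj with rfl | rfl | rfl
  · apply sum_eq_zero
    intro i _
    simp only [pow_one]
    exact hw.rows' i
  · have e1 := coef_vanish w hw h 2
    have e2 : ((N : K) + 1) * (N * (((N : K) - 1) *
        ∑ S ∈ (univ : Finset (Fin N)).powersetCard 2, coefS w S)) =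
        2 * (((N + 1).factorial : K) * ∑ S ∈ (univ : Finset (Fin N)).powersetCard 2,
          ∑ r : Fin N, ∏ i ∈ S, w (r.succ, i.succ)) := by
      rw [mul_sum, mul_sum, mul_sum, mul_sum, mul_sum]
      exact sum_congr rfl fun S hS => coefS_two w hw S (mem_powersetCard.mp hS).2
    rw [e1, hswap] at e2
    have e3 : ∑ r : Fin N, ∑ S ∈ (univ : Finset (Fin N)).powersetCard 2,
        ∏ i ∈ S, w (r.succ, i.succ) = 0 := by
      have : ((N + 1).factorial : K) * ∑ r : Fin N, ∑ S ∈ (univ : Finset (Fin N)).powersetCard 2,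
        ∏ i ∈ S, w (r.succ, i.succ) = 0 := by linear_combination -e2 / 2
      exact (mul_eq_zero.mp this).resolve_left hfac
    have e4 : ∑ r : Fin N, 2 * ∑ S ∈ (univ : Finset (Fin N)).powersetCard 2,
        ∏ i ∈ S, w (r.succ, i.succ) = - ∑ r : Fin N, ∑ i : Fin N, w (r.succ, i.succ) ^ 2 := by
      rw [← sum_neg_distrib]
      exact sum_congr rfl fun r _ =>
        (esymm_two_three (fun i => w (r.succ, i.succ)) (hw.rows' r)).1
    rw [← mul_sum, e3, mul_zero] at e4
    have e5 : ∑ r : Fin N, ∑ i : Fin N, w (r.succ, i.succ) ^ 2 = 0 := by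
      linear_combination e4
    exact e5
  · have e1 := coef_vanish w hw h 3
    have e2 : ((N : K) + 1) * (N * (((N : K) - 1) * (((N : K) - 2) *
        ∑ S ∈ (univ : Finset (Fin N)).powersetCard 3, coefS w S))) =
        -(6 * (((N + 1).factorial : K) * ∑ S ∈ (univ : Finset (Fin N)).powersetCard 3,
          ∑ r : Fin N, ∏ i ∈ S, w (r.succ, i.succ))) := by
      rw [mul_sum, mul_sum, mul_sum, mul_sum, mul_sum, mul_sum, ← sum_neg_distrib]
      exact sum_congr rfl fun S hS => coefS_three w hw S (mem_powersetCard.mp hS).2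
    rw [e1, hswap] at e2
    have e3 : ∑ r : Fin N, ∑ S ∈ (univ : Finset (Fin N)).powersetCard 3,
        ∏ i ∈ S, w (r.succ, i.succ) = 0 := by
      have : ((N + 1).factorial : K) * ∑ r : Fin N, ∑ S ∈ (univ : Finset (Fin N)).powersetCard 3,
        ∏ i ∈ S, w (r.succ, i.succ) = 0 := by linear_combination e2 / 6
      exact (mul_eq_zero.mp this).resolve_left hfac
    have e4 : ∑ r : Fin N, 3 * ∑ S ∈ (univ : Finset (Fin N)).powersetCard 3,
        ∏ i ∈ S, w (r.succ, i.succ) = ∑ r : Fin N, ∑ i : Fin N, w (r.succ, i.succ) ^ 3 :=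
      sum_congr rfl fun r _ =>
        (esymm_two_three (fun i => w (r.succ, i.succ)) (hw.rows' r)).2
    rw [← mul_sum, e3, mul_zero] at e4
    exact e4.symm

end H1DC
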