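import Mathlib

/-! # Sums over permutations of products of functions with zero sum -/

namespace H1DC

open Finset Equiv

set_option linter.unusedSectionVars false

variable {K α : Type*} [Field K] [CharZero K] [Fintype α] [DecidableEq α]

lemma sum_perm_comp (f : Perm α → K) (τ : Perm α) :
    ∑ σ : Perm α, f (σ * τ) = ∑ σ : Perm α, f σ :=
  Fintype.sum_equiv (Equiv.mulRight τ) _ _ fun _ => rfl

/-- one function -/
lemma perm_sum_one (a : α) (f : α → K) :
    (Fintype.card α : K) * ∑ σ : Perm α, f (σ a) = ((Fintype.card α).factorial : K) * ∑ r, f r := by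
  have h : ∀ b : α, ∑ σ : Perm α, f (σ b) = ∑ σ : Perm α, f (σ a) := by
    intro b
    rw [← sum_perm_comp (fun σ => f (σ b)) (swap a b)]
    apply sum_congr rfl
    intro σ _
    rw [Perm.mul_apply, swap_apply_right]
  have h2 : ∑ b : α, ∑ σ : Perm α, f (σ b) = ((Fintype.card α).factorial : K) * ∑ r, f r := by
    rw [sum_comm]
    rw [sum_congr rfl (fun σ _ => Equiv.sum_comp σ f), sum_const, card_univ,
      Fintype.card_perm, nsmul_eq_mul]
  rw [← h2, sum_congr rfl (fun b _ => h b), sum_const, card_univ, nsmul_eq_mul]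

/-- two functions, the second one with zero sum -/
lemma perm_sum_two (a b : α) (hab : a ≠ b) (f g : α → K) (hg : ∑ r, g r = 0) :
    (Fintype.card α : K) * (((Fintype.card α : K) - 1) * ∑ σ : Perm α, f (σ a) * g (σ b)) =
      - (((Fintype.card α).factorial : K) * ∑ r, f r * g r) := by
  have h : ∀ c ∈ univ.erase a, ∑ σ : Perm α, f (σ a) * g (σ c) =
      ∑ σ : Perm α, f (σ a) * g (σ b) := by
    intro c hc
    have hca : c ≠ a := (mem_erase.mp hc).1
    rw [← sum_perm_comp (fun σ => f (σ a) * g (σ c)) (swap b c)]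
    apply sum_congr rfl
    intro σ _
    simp only [Perm.mul_apply]
    rw [swap_apply_right, swap_apply_of_ne_of_ne hab hca.symm]
  have h2 : ∑ c ∈ univ.erase a, ∑ σ : Perm α, f (σ a) * g (σ c) =
      - ∑ σ : Perm α, (fun r => f r * g r) (σ a) := by
    rw [sum_comm, ← sum_neg_distrib]
    apply sum_congr rfl
    intro σ _
    rw [← mul_sum]
    have h3 : ∑ c ∈ univ.erase a, g (σ c) = - g (σ a) := by
      have h4 := sum_erase_add univ (fun c => g (σ c)) (mem_univ a)
      rw [Equiv.sum_comp σ g, hg] at h4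
      linear_combination h4
    rw [h3]; ring
  rw [sum_congr rfl h, sum_const, card_erase_of_mem (mem_univ a), card_univ, nsmul_eq_mul] at h2
  have hpos : 1 ≤ Fintype.card α := Fintype.card_pos_iff.mpr ⟨a⟩
  rw [Nat.cast_sub hpos, Nat.cast_one] at h2
  rw [h2, mul_neg, perm_sum_one a (fun r => f r * g r)]

/-- three functions with zero sum -/
lemma perm_sum_three (a b c : α) (hab : a ≠ b) (hac : a ≠ c) (hbc : b ≠ c) (f g h : α → K)
    (hf : ∑ r, f r = 0) (hg : ∑ r, g r = 0) (hh : ∑ r, h r = 0) :
    (Fintype.card α : K) * (((Fintype.card α : K) - 1) * (((Fintype.card α : K) - 2) *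
      ∑ σ : Perm α, f (σ a) * g (σ b) * h (σ c))) =
      2 * (((Fintype.card α).factorial : K) * ∑ r, f r * g r * h r) := by
  have hc : ∀ d ∈ (univ.erase a).erase b, ∑ σ : Perm α, f (σ a) * g (σ b) * h (σ d) =
      ∑ σ : Perm α, f (σ a) * g (σ b) * h (σ c) := by
    intro d hd
    have hda : d ≠ a := (mem_erase.mp (mem_erase.mp hd).2).1
    have hdb : d ≠ b := (mem_erase.mp hd).1
    rw [← sum_perm_comp (fun σ => f (σ a) * g (σ b) * h (σ d)) (swap c d)]
    apply sum_congr rfl
    intro σ _
    simp only [Perm.mul_apply]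
    rw [swap_apply_right, swap_apply_of_ne_of_ne hac hda.symm,
      swap_apply_of_ne_of_ne hbc hdb.symm]
  have h2 : ∑ d ∈ (univ.erase a).erase b, ∑ σ : Perm α, f (σ a) * g (σ b) * h (σ d) =
      - (∑ σ : Perm α, (fun r => f r * h r) (σ a) * g (σ b)) -
        ∑ σ : Perm α, (fun r => g r * h r) (σ b) * f (σ a) := by
    rw [sum_comm, ← sum_neg_distrib, ← sum_sub_distrib]
    apply sum_congr rfl
    intro σ _
    rw [← mul_sum]
    have h3 : ∑ d ∈ (univ.erase a).erase b, h (σ d) = - h (σ a) - h (σ b) := by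
      have h4 := sum_erase_add univ (fun c => h (σ c)) (mem_univ a)
      have h5 := sum_erase_add (univ.erase a) (fun c => h (σ c))
        (mem_erase.mpr ⟨hab.symm, mem_univ b⟩)
      rw [Equiv.sum_comp σ h, hh] at h4
      linear_combination h4 + h5
    rw [h3]; ring
  rw [sum_congr rfl hc, sum_const, card_erase_of_mem (mem_erase.mpr ⟨hab.symm, mem_univ b⟩),
    card_erase_of_mem (mem_univ a), card_univ, nsmul_eq_mul] at h2
  have hpos : 2 ≤ Fintype.card α := by
    have := Finset.card_le_univ ({a, b} : Finset α)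
    rwa [card_pair hab] at this
  have hcast : ((Fintype.card α - 1 - 1 : ℕ) : K) = (Fintype.card α : K) - 2 := by
    rw [Nat.sub_sub, Nat.cast_sub hpos]; norm_num
  rw [hcast] at h2
  rw [h2]
  have e1 := perm_sum_two a b hab (fun r => f r * h r) g hg
  have e2 := perm_sum_two b a hab.symm (fun r => g r * h r) f hf
  have e3 : ∑ r, (fun r => f r * h r) r * g r = ∑ r, f r * g r * h r :=
    sum_congr rfl fun r _ => by ring
  have e4 : ∑ r, (fun r => g r * h r) r * f r = ∑ r, f r * g r * h r :=
    sum_congr rfl fun r _ => by ring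
  rw [e3] at e1
  rw [e4] at e2
  linear_combination -e1 - e2

end H1DC
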